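import Mathlib

set_option autoImplicit false

namespace Pool.Agent.H484R3.Cay

open Finset

section core

variable {G A : Type*} [AddCommGroup G] [Fintype G] [DecidableEq G] [AddCommGroup A]
  [DecidableEq A]

/-- the number of bad cells in row `x` of the relation `f x + g y = h (x + y)` -/
def row (f g h : G → A) (x : G) : ℕ := (univ.filter fun y => f x + g y ≠ h (x + y)).card

/-- the number of bad cells -/
def bad (f g h : G → A) : ℕ :=
  (univ.filter fun z : G × G => f z.1 + g z.2 ≠ h (z.1 + z.2)).card

/-- the number of `z` with `h (z + d) - h z = v` -/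
def cnt (h : G → A) (d : G) (v : A) : ℕ := (univ.filter fun z => h (z + d) - h z = v).card

lemma sum_row (f g h : G → A) : ∑ x, row f g h x = bad f g h := by
  unfold row bad
  rw [card_filter, Fintype.sum_prod_type]
  simp only [card_filter]

lemma bad_swap (f g h : G → A) : bad g f h = bad f g h := by
  unfold bad
  refine card_equiv (Equiv.prodComm G G) ?_
  rintro ⟨x, y⟩
  simp [add_comm]

lemma cnt_shift (h : G → A) (d x : G) (v : A) :
    (univ.filter fun y => h (x + y + d) - h (x + y) = v).card = cnt h d v := by
  unfold cnt
  refine card_equiv (Equiv.addLeft x) ?_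
  intro y
  simp

lemma pair_h (f g h : G → A) (x d : G) :
    Fintype.card G ≤ row f g h x + row f g h (x + d) + cnt h d (f (x + d) - f x) := by
  rw [← cnt_shift h d x]
  unfold row
  refine le_trans ?_ (le_trans (card_union_le _ _) (Nat.add_le_add_right (card_union_le _ _) _))
  rw [← card_univ]
  refine card_le_card ?_
  intro y _
  simp only [mem_union, mem_filter, mem_univ, true_and]
  by_contra hcon
  push Not at hcon
  obtain ⟨⟨h1, h2⟩, h3⟩ := hcon
  apply h3
  have e : x + y + d = x + d + y := by abel
  rw [e, ← h2, ← h1]
  abel

lemma pair_g (f g h : G → A) (x d : G) :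
    Fintype.card G ≤ row f g h x + row f g h (x + d) + cnt g d (f (x + d) - f x) := by
  have hc : row f g h x = (univ.filter fun y => f x + g (y + d) ≠ h (x + (y + d))).card := by
    unfold row
    symm
    refine card_equiv (Equiv.addRight d) ?_
    intro y
    simp
  rw [hc]
  unfold row cnt
  refine le_trans ?_ (le_trans (card_union_le _ _) (Nat.add_le_add_right (card_union_le _ _) _))
  rw [← card_univ]
  refine card_le_card ?_
  intro y _
  simp only [mem_union, mem_filter, mem_univ, true_and]
  by_contra hcon
  push Not at hcon
  obtain ⟨⟨h1, h2⟩, h3⟩ := hcon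
  apply h3
  have e : x + (y + d) = x + d + y := by abel
  rw [e, ← h2] at h1
  have : g (y + d) = f (x + d) + g y - f x := by
    rw [← h1]; abel
  rw [this]; abel

lemma sum_row_shift (f g h : G → A) (d : G) : ∑ x, row f g h (x + d) = bad f g h := by
  rw [← sum_row f g h]
  exact Fintype.sum_equiv (Equiv.addRight d) _ _ (fun x => by simp)

lemma sum_cnt (f g h : G → A) (d : G) :
    Fintype.card G * Fintype.card G ≤ 2 * bad f g h + ∑ x, cnt h d (f (x + d) - f x) := by
  have h1 : ∑ _x : G, Fintype.card G ≤
      ∑ x, (row f g h x + row f g h (x + d) + cnt h d (f (x + d) - f x)) :=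
    sum_le_sum fun x _ => pair_h f g h x d
  rw [sum_add_distrib, sum_add_distrib, sum_row, sum_row_shift, sum_const, card_univ,
    smul_eq_mul] at h1
  omega

/-- existence of the majority slope of `h` -/
lemma exists_slope (f g h : G → A)
    (hb : 4 * bad f g h < Fintype.card G * Fintype.card G) (d : G) :
    ∃ v, Fintype.card G < 2 * cnt h d v := by
  by_contra hcon
  push Not at hcon
  have h1 := sum_cnt f g h d
  have h2 : 2 * ∑ x, cnt h d (f (x + d) - f x) ≤ Fintype.card G * Fintype.card G := by
    rw [mul_sum]
    calc ∑ x, 2 * cnt h d (f (x + d) - f x) ≤ ∑ _x : G, Fintype.card G :=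
          sum_le_sum fun x _ => hcon _
      _ = _ := by rw [sum_const, card_univ, smul_eq_mul]
  omega

lemma cnt_add_le (h : G → A) (d : G) {v w : A} (hvw : v ≠ w) :
    cnt h d v + cnt h d w ≤ Fintype.card G := by
  unfold cnt
  rw [← card_union_of_disjoint, ← card_univ]
  · exact card_le_card (subset_univ _)
  · rw [disjoint_left]
    intro z hz hz'
    simp only [mem_filter, mem_univ, true_and] at hz hz'
    exact hvw (hz.symm.trans hz')

lemma slope_unique (h : G → A) (d : G) {v w : A} (hv : Fintype.card G < 2 * cnt h d v)
    (hw : Fintype.card G < 2 * cnt h d w) : v = w := by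
  by_contra hne
  have := cnt_add_le h d hne
  omega

lemma cnt_neg (h : G → A) (d : G) (v : A) : cnt h (-d) (-v) = cnt h d v := by
  unfold cnt
  refine card_equiv (Equiv.addRight (-d)) ?_
  intro z
  simp only [mem_filter, mem_univ, true_and, Equiv.coe_addRight, neg_add_cancel_right]
  rw [neg_eq_iff_eq_neg.symm, neg_sub]

lemma cnt_zero (h : G → A) : cnt h 0 0 = Fintype.card G := by
  unfold cnt
  simp

lemma cnt_le (h : G → A) (d : G) (v : A) : cnt h d v ≤ Fintype.card G := by
  unfold cnt
  rw [← card_univ]
  exact card_le_card (subset_univ _)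

/-- `φ` is the majority slope of `h` -/
def IsSlope (h : G → A) (φ : G → A) : Prop := ∀ d, Fintype.card G < 2 * cnt h d (φ d)

variable {f g h φ : G → A}

lemma IsSlope.neg (hφ : IsSlope h φ) (d : G) : φ (-d) = -φ d := by
  refine slope_unique h (-d) (hφ (-d)) ?_
  rw [cnt_neg]
  exact hφ d

lemma IsSlope.zero (hφ : IsSlope h φ) : φ 0 = 0 := by
  have h0 : 0 < Fintype.card G := Fintype.card_pos
  refine slope_unique h 0 (hφ 0) ?_
  rw [cnt_zero]
  omega

/-- a good edge -/
lemma edge_good (hx : φ = φ) (x d : G) (hgood : f (x + d) - f x = φ d) :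
    Fintype.card G ≤ row f g h x + row f g h (x + d) + cnt h d (φ d) := by
  have := pair_h f g h x d
  rwa [hgood] at this

lemma edge_bad (x d : G) (hbad : f (x + d) - f x ≠ φ d) :
    cnt h d (φ d) ≤ row f g h x + row f g h (x + d) := by
  have h1 := pair_h f g h x d
  have h2 := cnt_add_le h d hbad
  omega

lemma edge_bad_g (x d : G) (hbad : f (x + d) - f x ≠ φ d) :
    cnt g d (φ d) ≤ row f g h x + row f g h (x + d) := by
  have h1 := pair_g f g h x d
  have h2 := cnt_add_le g d hbad
  omega

/-- the alternative Cauchy equation -/
def Star (φ : G → A) : Prop := ∀ d e, φ (d + e) = φ d + φ e ∨ φ (e - d) = φ e - φ d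

lemma four_rows (hφ : IsSlope h φ) (d e : G) (h1 : φ (d + e) ≠ φ d + φ e)
    (h2 : φ (e - d) ≠ φ e - φ d) (x : G) :
    Fintype.card G ≤ row f g h x + row f g h (x + d) + row f g h (x + e) +
      row f g h (x + (d + e)) := by
  have e1 : x + e + d = x + (d + e) := by abel
  have e2 : x + d + e = x + (d + e) := by abel
  have e3 : x + d + (e - d) = x + e := by abel
  by_cases a : f (x + d) - f x = φ d
  · by_cases a' : f (x + e + d) - f (x + e) = φ d
    · by_cases b : f (x + e) - f x = φ e
      · by_cases b' : f (x + d + e) - f (x + d) = φ e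
        · -- all sides good
          have hb1 : f (x + (d + e)) - f x ≠ φ (d + e) := by
            intro hc
            apply h1
            rw [← hc, ← a, ← b', e2]
            abel
          have hb2 : f (x + d + (e - d)) - f (x + d) ≠ φ (e - d) := by
            intro hc
            apply h2
            rw [← hc, e3, ← a, ← b]
            abel
          have i1 := edge_bad (g := g) (h := h) x (d + e) hb1
          have i2 := edge_bad (g := g) (h := h) (x + d) (e - d) hb2
          rw [e3] at i2
          have j1 := hφ (d + e)
          have j2 := hφ (e - d)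
          omega
        · have i1 := edge_good (g := g) (h := h) rfl x e b
          have i2 := edge_bad (g := g) (h := h) (x + d) e b'
          rw [e2] at i2
          omega
      · have i1 := edge_bad (g := g) (h := h) x e b
        by_cases b' : f (x + d + e) - f (x + d) = φ e
        · have i2 := edge_good (g := g) (h := h) rfl (x + d) e b'
          rw [e2] at i2
          omega
        · have i2 := edge_bad (g := g) (h := h) (x + d) e b'
          rw [e2] at i2
          have j1 := hφ e
          omega
    · have i1 := edge_good (g := g) (h := h) rfl x d a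
      have i2 := edge_bad (g := g) (h := h) (x + e) d a'
      rw [e1] at i2
      omega
  · have i1 := edge_bad (g := g) (h := h) x d a
    by_cases a' : f (x + e + d) - f (x + e) = φ d
    · have i2 := edge_good (g := g) (h := h) rfl (x + e) d a'
      rw [e1] at i2
      omega
    · have i2 := edge_bad (g := g) (h := h) (x + e) d a'
      rw [e1] at i2
      have j1 := hφ d
      omega

theorem star_of_lt (hφ : IsSlope h φ)
    (hb : 4 * bad f g h < Fintype.card G * Fintype.card G) : Star φ := by
  intro d e
  by_contra hcon
  push Not at hcon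
  obtain ⟨h1, h2⟩ := hcon
  have hs : ∑ _x : G, Fintype.card G ≤ ∑ x, (row f g h x + row f g h (x + d) +
      row f g h (x + e) + row f g h (x + (d + e))) :=
    sum_le_sum fun x _ => four_rows hφ d e h1 h2 x
  rw [sum_add_distrib, sum_add_distrib, sum_add_distrib, sum_row, sum_row_shift, sum_row_shift,
    sum_row_shift, sum_const, card_univ, smul_eq_mul] at hs
  omega

/-- if `φ` is additive on a subgroup `C` then it is additive in the directions of `C` -/
theorem additive_extend (hs : Star φ) (C : AddSubgroup G)
    (hC : ∀ c ∈ C, ∀ c' ∈ C, φ (c + c') = φ c + φ c') (e : G) {c : G} (hc : c ∈ C) :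
    φ (e + c) = φ e + φ c := by
  classical
  have hneg : ∀ c ∈ C, φ (-c) = -φ c := by
    intro c hc
    have h0 : φ 0 = 0 := by
      have := hC 0 C.zero_mem 0 C.zero_mem
      simpa using this
    have := hC c hc (-c) (C.neg_mem hc)
    rw [add_neg_cancel, h0] at this
    exact (neg_eq_of_add_eq_zero_right this.symm).symm
  -- the function `v`
  let v : C → A := fun c => φ (e + c) - φ c
  have key : ∀ c i : C, v (c + i) = v c ∨ v (c - i) = v c := by
    intro c i
    rcases hs i (e + c) with h | h
    · left
      simp only [v, AddSubgroup.coe_add]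
      rw [hC _ c.2 _ i.2]
      have e1 : e + ((c : G) + i) = i + (e + c) := by abel
      rw [e1, h]
      abel
    · right
      simp only [v, AddSubgroup.coe_sub]
      have e1 : e + ((c : G) - i) = e + c - i := by abel
      have e2 : φ ((c : G) - i) = φ c - φ i := by
        rw [sub_eq_add_neg, hC _ c.2 _ (C.neg_mem i.2), hneg _ i.2]
        abel
      rw [e1, h, e2]
      abel
  have big : ∀ c : C, Fintype.card C < 2 * (univ.filter fun k : C => v k = v c).card := by
    intro c
    have hI : (univ.filter fun k : C => v k = v c).card =
        (univ.filter fun i : C => v (c + i) = v c).card := by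
      symm
      refine card_equiv (Equiv.addLeft c) ?_
      intro i
      simp
    have hI' : (univ.filter fun k : C => v k = v c).card =
        (univ.filter fun i : C => v (c - i) = v c).card := by
      symm
      refine card_equiv (Equiv.subLeft c) ?_
      intro i
      simp
    have hun : (univ : Finset C) = (univ.filter fun i : C => v (c + i) = v c) ∪
        (univ.filter fun i : C => v (c - i) = v c) := by
      ext i
      simp only [mem_univ, mem_union, mem_filter, true_and, true_iff]
      exact key c i
    have hin : (0 : C) ∈ (univ.filter fun i : C => v (c + i) = v c) ∩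
        (univ.filter fun i : C => v (c - i) = v c) := by
      simp
    have h3 := card_union_add_card_inter (univ.filter fun i : C => v (c + i) = v c)
      (univ.filter fun i : C => v (c - i) = v c)
    rw [← hun, card_univ, ← hI, ← hI'] at h3
    have h4 : 0 < ((univ.filter fun i : C => v (c + i) = v c) ∩
        (univ.filter fun i : C => v (c - i) = v c)).card := card_pos.2 ⟨0, hin⟩
    omega
  have h0 := big 0
  have h1 := big ⟨c, hc⟩
  have hint : ((univ.filter fun k : C => v k = v 0) ∩
      (univ.filter fun k : C => v k = v ⟨c, hc⟩)).Nonempty := by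
    rw [← card_pos]
    have h3 := card_union_add_card_inter (univ.filter fun k : C => v k = v 0)
      (univ.filter fun k : C => v k = v ⟨c, hc⟩)
    have h4 : ((univ.filter fun k : C => v k = v 0) ∪
      (univ.filter fun k : C => v k = v ⟨c, hc⟩)).card ≤ Fintype.card C := by
      rw [← card_univ]; exact card_le_card (subset_univ _)
    omega
  obtain ⟨k, hk⟩ := hint
  simp only [mem_inter, mem_filter, mem_univ, true_and] at hk
  have hv : v 0 = v ⟨c, hc⟩ := hk.1.symm.trans hk.2
  simp only [v, AddSubgroup.coe_zero, add_zero] at hv
  have hz : φ 0 = 0 := by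
    have := hC 0 C.zero_mem 0 C.zero_mem
    simpa using this
  rw [hz, sub_zero] at hv
  rw [hv]
  abel

end core

end Pool.Agent.H484R3.Cay
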