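import Mathlib
import Pool.Agent.H484R3.CayA

set_option autoImplicit false
set_option linter.unusedSectionVars false

namespace Pool.Agent.H484R3.Cay

open Finset

/-- A small case of Kneser's theorem. -/
theorem keyK {J : Type*} [AddCommGroup J] [DecidableEq J] (p : ℕ) [Fact p.Prime]
    (π : J →+ ZMod p) (S : Finset J) (hS : Set.InjOn π S) :
    ∀ (m : ℕ) (X Y : Finset J), Y.card = m → X.Nonempty → Y.Nonempty →
      (∀ x ∈ X, ∀ y ∈ Y, x + y ∈ S) → p + 2 ≤ X.card + Y.card →
      ∀ s ∈ S, ∀ t ∈ S, ∀ u ∈ S, s + t - u ∈ S := by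
  intro m
  induction m using Nat.strong_induction_on with
  | _ m ih =>
  intro X Y hm hX hY hXY hcard
  have hp : p.Prime := Fact.out
  have hSp : S.card ≤ p := by
    have := card_le_card_of_injOn (t := (univ : Finset (ZMod p))) π (fun _ _ => mem_univ _) hS
    rwa [card_univ, ZMod.card] at this
  have hXS : ∀ y ∈ Y, X.card ≤ S.card := by
    intro y hy
    refine card_le_card_of_injOn (fun x => x + y) (fun x hx => hXY x hx y hy) ?_
    intro a _ b _ hab
    exact add_right_cancel hab
  obtain ⟨y0, hy0⟩ := hY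
  have hXS0 := hXS y0 hy0
  by_cases hcase : ∀ x ∈ X, ∀ y ∈ Y, ∀ y' ∈ Y, y' + (x - y) ∈ X
  · -- the periodic case
    have hY2 : 1 < Y.card := by omega
    obtain ⟨y1, hy1, hne⟩ := exists_mem_ne hY2 y0
    set δ := y1 - y0 with hδ
    have hXδ : ∀ x ∈ X, x + δ ∈ X := by
      intro x hx
      have := hcase x hx y0 hy0 y1 hy1
      have e : y1 + (x - y0) = x + δ := by rw [hδ]; abel
      rwa [e] at this
    obtain ⟨x0, hx0⟩ := hX
    have hπδ : π δ ≠ 0 := by
      intro h0
      apply hne
      have h1 : π (x0 + y1) = π (x0 + y0) := by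
        have e : x0 + y1 = (x0 + y0) + δ := by rw [hδ]; abel
        rw [e, map_add, h0, add_zero]
      have := hS (hXY x0 hx0 y1 hy1) (hXY x0 hx0 y0 hy0) h1
      exact add_left_cancel this
    have hxj : ∀ j : ℕ, x0 + j • δ ∈ X := by
      intro j
      induction j with
      | zero => simpa using hx0
      | succ j ih =>
        have := hXδ _ ih
        rw [succ_nsmul, ← add_assoc]
        exact this
    have hinj : Set.InjOn (fun j : ℕ => x0 + j • δ) (range p : Finset ℕ) := by
      intro a ha b hb hab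
      have ha' : a < p := by simpa using ha
      have hb' : b < p := by simpa using hb
      have h1 : π (x0 + a • δ) = π (x0 + b • δ) := congrArg π hab
      rw [map_add, map_add, map_nsmul, map_nsmul] at h1
      have h2 : (a : ZMod p) * π δ = (b : ZMod p) * π δ := by
        simpa [nsmul_eq_mul] using add_left_cancel h1
      have h3 : (a : ZMod p) = (b : ZMod p) := mul_right_cancel₀ hπδ h2
      have h4 := congrArg ZMod.val h3
      rwa [ZMod.val_natCast_of_lt ha', ZMod.val_natCast_of_lt hb'] at h4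
    have hXeq : (range p).image (fun j : ℕ => x0 + j • δ) = X := by
      refine eq_of_subset_of_card_le ?_ ?_
      · intro x hx
        obtain ⟨j, _, rfl⟩ := mem_image.1 hx
        exact hxj j
      · rw [card_image_of_injOn hinj, card_range]
        omega
    have hXp : X.card = p := by
      rw [← hXeq, card_image_of_injOn hinj, card_range]
    have hSeq : X.image (fun x => x + y0) = S := by
      refine eq_of_subset_of_card_le ?_ ?_
      · intro s hs
        obtain ⟨x, hx, rfl⟩ := mem_image.1 hs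
        exact hXY x hx y0 hy0
      · rw [card_image_of_injective _ (add_left_injective y0)]
        omega
    have hSrep : ∀ s ∈ S, ∃ j : ℕ, s = x0 + y0 + j • δ := by
      intro s hs
      rw [← hSeq] at hs
      obtain ⟨x, hx, rfl⟩ := mem_image.1 hs
      rw [← hXeq] at hx
      obtain ⟨j, _, rfl⟩ := mem_image.1 hx
      exact ⟨j, by abel⟩
    have hSmem : ∀ j : ℕ, x0 + y0 + j • δ ∈ S := by
      intro j
      have := hXY _ (hxj j) y0 hy0
      have e : x0 + j • δ + y0 = x0 + y0 + j • δ := by abel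
      rwa [e] at this
    have hpδ : p • δ = 0 := by
      have h1 := hSmem p
      have h2 := hSmem 0
      have h3 : π (x0 + y0 + p • δ) = π (x0 + y0 + 0 • δ) := by
        rw [map_add, map_add _ (x0 + y0), map_nsmul]
        simp
      have := hS h1 h2 h3
      simpa using this
    intro s hs t ht u hu
    obtain ⟨i, rfl⟩ := hSrep s hs
    obtain ⟨j, rfl⟩ := hSrep t ht
    obtain ⟨k, rfl⟩ := hSrep u hu
    have h1 := hSmem (i + j + (p - 1) * k)
    have h2 : ((p - 1) * k) • δ = -(k • δ) := by
      have h3 : ((p - 1) * k) • δ + k • δ = 0 := by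
        rw [← add_nsmul]
        have : (p - 1) * k + k = p * k := by
          have := hp.one_lt
          obtain ⟨q, rfl⟩ : ∃ q, p = q + 1 := ⟨p - 1, by omega⟩
          simp only [Nat.add_sub_cancel]; ring
        rw [this, mul_nsmul, hpδ, nsmul_zero]
      exact eq_neg_of_add_eq_zero_left h3
    rw [add_nsmul, add_nsmul, h2] at h1
    have e : x0 + y0 + i • δ + (x0 + y0 + j • δ) - (x0 + y0 + k • δ)
        = x0 + y0 + (i • δ + j • δ + -(k • δ)) := by abel
    rw [e]
    exact h1
  · -- Dyson transform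
    push Not at hcase
    obtain ⟨x, hx, y, hy, y', hy', hnot⟩ := hcase
    set e := x - y with he
    set Y' := Y.filter (fun w => w + e ∈ X) with hY'
    set X' := X ∪ Y.image (fun w => w + e) with hX'
    have hsub : Y' ⊂ Y := by
      refine (filter_ssubset).2 ⟨y', hy', hnot⟩
    have hlt : Y'.card < m := by rw [← hm]; exact card_lt_card hsub
    have hyY' : y ∈ Y' := by
      rw [hY', mem_filter]
      refine ⟨hy, ?_⟩
      have : y + e = x := by rw [he]; abel
      rw [this]; exact hx
    refine ih Y'.card hlt X' Y' rfl ⟨x, mem_union_left _ hx⟩ ⟨y, hyY'⟩ ?_ ?_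
    · intro u hu w hw
      rw [hY', mem_filter] at hw
      rw [hX', mem_union] at hu
      rcases hu with hu | hu
      · exact hXY u hu w hw.1
      · obtain ⟨v, hv, rfl⟩ := mem_image.1 hu
        have := hXY _ hw.2 v hv
        have e' : w + e + v = v + e + w := by abel
        rwa [e'] at this
    · have h1 := card_union_add_card_inter X (Y.image (fun w => w + e))
      rw [card_image_of_injective _ (add_left_injective e)] at h1
      have h2 : (X ∩ Y.image (fun w => w + e)).card = Y'.card := by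
        have : X ∩ Y.image (fun w => w + e) = Y'.image (fun w => w + e) := by
          ext z
          simp only [mem_inter, mem_image, hY', mem_filter]
          constructor
          · rintro ⟨hz, w, hw, rfl⟩
            exact ⟨w, ⟨hw, hz⟩, rfl⟩
          · rintro ⟨w, ⟨hw, hz⟩, rfl⟩
            exact ⟨hz, w, hw, rfl⟩
        rw [this, card_image_of_injective _ (add_left_injective e)]
      have h3 : X'.card = (X ∪ Y.image (fun w => w + e)).card := rfl
      omega

/-- Application of `keyK`: a quasi-periodic function on the integers which is compatible with two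
large sets is additive. -/
theorem additive_of_big {A : Type*} [AddCommGroup A] (p : ℕ) [Fact p.Prime] (ψ : ℤ → A)
    (h0 : ψ 0 = 0) (hψ : ∀ i, ψ (i + p) = ψ i + ψ p) (F : Fin p → A) (U V : Finset (Fin p))
    (hU : U.Nonempty) (hV : V.Nonempty)
    (hUV : ∀ a ∈ U, ∀ b ∈ V, F a - F b = ψ ((a : ℕ) - (b : ℕ) : ℤ))
    (hcard : p + 2 ≤ U.card + V.card) : ∀ i j, ψ (i + j) = ψ i + ψ j := by
  classical
  have hp : p.Prime := Fact.out
  let N : AddSubgroup (ℤ × A) := AddSubgroup.zmultiples ((p : ℤ), ψ p)
  let mk : ℤ × A →+ (ℤ × A) ⧸ N := QuotientAddGroup.mk' N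
  let pr : ℤ × A →+ ZMod p := (Int.castAddHom (ZMod p)).comp (AddMonoidHom.fst ℤ A)
  have hN : N ≤ pr.ker := by
    apply AddSubgroup.zmultiples_le_of_mem
    simp [pr, AddMonoidHom.mem_ker]
  let π : (ℤ × A) ⧸ N →+ ZMod p := QuotientAddGroup.lift N pr hN
  have hπ : ∀ u : ℤ × A, π (mk u) = (u.1 : ZMod p) := by
    intro u
    simp only [π, mk, QuotientAddGroup.mk'_apply, QuotientAddGroup.lift_mk]
    simp [pr]
  have hmk : ∀ u v : ℤ × A, mk u = mk v ↔ ∃ q : ℤ, v = u + (q * p, q • ψ p) := by
    intro u v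
    simp only [mk, QuotientAddGroup.mk'_apply, QuotientAddGroup.eq]
    rw [AddSubgroup.mem_zmultiples_iff]
    constructor
    · rintro ⟨q, hq⟩
      refine ⟨q, ?_⟩
      have : v = u + (-u + v) := by abel
      rw [this, ← hq]
      simp
    · rintro ⟨q, hq⟩
      refine ⟨q, ?_⟩
      rw [hq]
      simp
  have hq1 : ∀ (n : ℕ) (i : ℤ), ψ (i + n * p) = ψ i + n • ψ p := by
    intro n
    induction n with
    | zero => intro i; simp
    | succ n ih =>
      intro i
      have e : i + ((n + 1 : ℕ) : ℤ) * p = (i + n * p) + p := by push_cast; ring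
      rw [e, hψ, ih, succ_nsmul, add_assoc]
  have hq : ∀ (q i : ℤ), ψ (i + q * p) = ψ i + q • ψ p := by
    intro q i
    obtain ⟨n, rfl | rfl⟩ := q.eq_nat_or_neg
    · rw [hq1, natCast_zsmul]
    · have := hq1 n (i + -(n : ℤ) * p)
      have e : i + -(n : ℤ) * p + n * p = i := by ring
      rw [e] at this
      rw [this, neg_zsmul, natCast_zsmul]
      abel
  have hmod : ∀ i j : ℤ, (i : ZMod p) = (j : ZMod p) → mk (i, ψ i) = mk (j, ψ j) := by
    intro i j hij
    rw [ZMod.intCast_eq_intCast_iff_dvd_sub] at hij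
    obtain ⟨q, hqq⟩ := hij
    rw [hmk]
    refine ⟨q, ?_⟩
    have e : j = i + q * p := by linarith
    rw [e, hq]
    simp
  let S : Finset ((ℤ × A) ⧸ N) := (range p).image (fun i : ℕ => mk ((i : ℤ), ψ i))
  have hSmem : ∀ i : ℤ, mk (i, ψ i) ∈ S := by
    intro i
    have hp0 : (0 : ℤ) < p := by exact_mod_cast hp.pos
    refine mem_image.2 ⟨(i % p).toNat, ?_, ?_⟩
    · rw [mem_range]
      have h1 := Int.emod_nonneg i hp0.ne'
      have h2 := Int.emod_lt_of_pos i hp0
      omega
    · apply hmod
      have h1 := Int.emod_nonneg i hp0.ne'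
      rw [Int.toNat_of_nonneg h1]
      simp
  have hSinj : Set.InjOn π S := by
    intro a ha b hb hab
    obtain ⟨i, _, rfl⟩ := mem_image.1 (mem_coe.1 ha)
    obtain ⟨j, _, rfl⟩ := mem_image.1 (mem_coe.1 hb)
    rw [hπ, hπ] at hab
    exact hmod _ _ hab
  have hfin : ∀ a b : Fin p, (((a : ℕ) : ℤ) : ZMod p) = (((b : ℕ) : ℤ) : ZMod p) → a = b := by
    intro a b hab
    have h1 : ((a : ℕ) : ZMod p) = ((b : ℕ) : ZMod p) := by exact_mod_cast hab
    have h4 := congrArg ZMod.val h1
    rw [ZMod.val_natCast_of_lt a.isLt, ZMod.val_natCast_of_lt b.isLt] at h4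
    exact Fin.ext h4
  let X : Finset ((ℤ × A) ⧸ N) := U.image (fun a : Fin p => mk (((a : ℕ) : ℤ), F a))
  let Y : Finset ((ℤ × A) ⧸ N) := V.image (fun b : Fin p => mk (-((b : ℕ) : ℤ), -F b))
  have hXc : X.card = U.card := by
    apply card_image_of_injective
    intro a b hab
    have := congrArg π hab
    simp only [hπ] at this
    exact hfin a b this
  have hYc : Y.card = V.card := by
    apply card_image_of_injective
    intro a b hab
    have := congrArg π hab
    simp only [hπ, Int.cast_neg, neg_inj] at this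
    exact hfin a b this
  have hXY : ∀ x ∈ X, ∀ y ∈ Y, x + y ∈ S := by
    intro x hx y hy
    obtain ⟨a, ha, rfl⟩ := mem_image.1 hx
    obtain ⟨b, hb, rfl⟩ := mem_image.1 hy
    rw [← map_add]
    have e : (((a : ℕ) : ℤ), F a) + (-((b : ℕ) : ℤ), -F b) =
        (((a : ℕ) : ℤ) - ((b : ℕ) : ℤ), ψ (((a : ℕ) : ℤ) - ((b : ℕ) : ℤ))) := by
      rw [← hUV a ha b hb]
      simp [sub_eq_add_neg]
    rw [e]
    exact hSmem _
  have hfinal := keyK p π S hSinj Y.card X Y rfl (hU.image _) (hV.image _) hXY
    (by rw [hXc, hYc]; exact hcard)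
  intro i j
  have h1 := hfinal _ (hSmem i) _ (hSmem j) _ (hSmem 0)
  rw [h0, ← map_add, ← map_sub] at h1
  have h2 : mk ((i, ψ i) + (j, ψ j) - (0, 0)) = mk (i + j, ψ (i + j)) := by
    apply hSinj h1 (hSmem _)
    rw [hπ, hπ]
    simp
  rw [hmk] at h2
  obtain ⟨q, hqq⟩ := h2
  have h3 := congrArg Prod.fst hqq
  have h4 := congrArg Prod.snd hqq
  simp only [Prod.fst_add, Prod.fst_sub, Prod.snd_add, Prod.snd_sub, sub_zero] at h3 h4
  have h5 : q * (p : ℤ) = 0 := by linarith
  have hp0 : (p : ℤ) ≠ 0 := by exact_mod_cast hp.ne_zero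
  have h6 : q = 0 := by
    rcases mul_eq_zero.1 h5 with h | h
    · exact h
    · exact absurd h hp0
  rw [h6, zero_zsmul, add_zero] at h4
  exact h4

end Pool.Agent.H484R3.Cay
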