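import Mathlib
import Pool.Agent.H484R3.CayA
import Pool.Agent.H484R3.CayB

set_option autoImplicit false
set_option linter.unusedSectionVars false

namespace Pool.Agent.H484R3.Cay

open Finset

variable {G A : Type*} [AddCommGroup G] [Fintype G] [DecidableEq G] [AddCommGroup A]
  [DecidableEq A]
variable {f g h φ : G → A}

/-- the directions in which `φ` is additive -/
def Add (φ : G → A) (d : G) : Prop := ∀ e, φ (e + d) = φ e + φ d

lemma Add.neg (hodd : ∀ d, φ (-d) = -φ d) {d : G} (hd : Add φ d) : Add φ (-d) := by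
  intro e
  have := hd (-e)
  have e1 : e + -d = -(-e + d) := by abel
  rw [e1, hodd, this, hodd, hodd]
  abel

lemma Add.add {d d' : G} (hd : Add φ d) (hd' : Add φ d') : Add φ (d + d') := by
  intro e
  rw [← add_assoc, hd', hd, hd' d, add_assoc]

/-- the case of the prime two -/
lemma add_of_two (hs : Star φ) (hodd : ∀ d, φ (-d) = -φ d) {d : G} (h2 : Add φ (d + d)) :
    Add φ d := by
  intro e
  have h3 : φ (d + d) = φ d + φ d := by
    have := h2 (-d)
    have e1 : -d + (d + d) = d := by abel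
    rw [e1, hodd] at this
    rw [eq_neg_add_iff_add_eq] at this
    exact this.symm
  rcases hs d e with h | h
  · rw [add_comm e d, h, add_comm]
  · have := h2 (e - d)
    have e1 : e - d + (d + d) = e + d := by abel
    rw [e1, h, h3] at this
    rw [this]; abel

/-- `g` has the same majority slope as `h` and one of the majorities is large -/
lemma slope_gh (hφ : IsSlope h φ)
    (hb : 4 * bad f g h < Fintype.card G * Fintype.card G) (d : G) :
    ∃ M : ℕ, Fintype.card G < 2 * M ∧ M ≤ Fintype.card G ∧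
      (M = cnt g d (φ d) ∨ M = cnt h d (φ d)) ∧
      M * (Fintype.card G - M) ≤ bad f g h := by
  set n := Fintype.card G with hn
  set P := cnt g d (φ d) with hP
  set Q := cnt h d (φ d) with hQ
  have hPn : P ≤ n := cnt_le g d _
  have hQn : Q ≤ n := cnt_le h d _
  have hQ2 : n < 2 * Q := hφ d
  have h1 := sum_cnt g f h d
  rw [bad_swap] at h1
  have h2 : ∑ x, cnt h d (g (x + d) - g x) ≤ P * Q + (n - P) * (n - Q) := by
    have h3 : ∀ x, cnt h d (g (x + d) - g x) ≤
        if g (x + d) - g x = φ d then Q else n - Q := by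
      intro x
      split_ifs with hx
      · rw [hx]
      · have := cnt_add_le h d hx
        omega
    refine le_trans (sum_le_sum fun x _ => h3 x) ?_
    rw [sum_ite, sum_const, sum_const, smul_eq_mul, smul_eq_mul]
    have h4 : (univ.filter fun x => g (x + d) - g x = φ d).card = P := rfl
    have h5 : (univ.filter fun x => ¬ (g (x + d) - g x = φ d)).card = n - P := by
      have := card_filter_add_card_filter_not (s := (univ : Finset G))
        (fun x => g (x + d) - g x = φ d)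
      rw [card_univ] at this
      omega
    rw [h4, h5]
  obtain ⟨P', hP'⟩ : ∃ P', n = P + P' := ⟨n - P, by omega⟩
  obtain ⟨Q', hQ'⟩ : ∃ Q', n = Q + Q' := ⟨n - Q, by omega⟩
  have eP : n - P = P' := by omega
  have eQ : n - Q = Q' := by omega
  rw [eP, eQ] at h2
  have hPP : n < 2 * P := by
    by_contra hcon
    have h6 : P ≤ P' := by omega
    have h7 : Q' < Q := by omega
    nlinarith
  rcases le_total P Q with hle | hle
  · refine ⟨Q, hQ2, hQn, Or.inr rfl, ?_⟩
    rw [eQ]
    nlinarith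
  · refine ⟨P, hPP, hPn, Or.inl rfl, ?_⟩
    rw [eP]
    nlinarith

/-- bad edges have large row sums -/
lemma edge_big (hφ : IsSlope h φ) {p : ℕ} (hp : 1 < p)
    (hb : 4 * p ^ 2 * bad f g h < (p ^ 2 - 1) * (Fintype.card G) ^ 2) (x d : G)
    (hbad : f (x + d) - f x ≠ φ d) :
    (p + 1) * Fintype.card G < 2 * p * (row f g h x + row f g h (x + d)) := by
  set n := Fintype.card G with hn
  have hp2 : 1 ≤ p ^ 2 := Nat.one_le_pow _ _ (by omega)
  obtain ⟨r, hr⟩ : ∃ r, p ^ 2 = r + 1 := ⟨p ^ 2 - 1, by omega⟩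
  have er : p ^ 2 - 1 = r := by omega
  have hb4 : 4 * bad f g h < n * n := by
    rw [er, hr] at hb
    by_contra hcon
    push Not at hcon
    nlinarith
  obtain ⟨M, hM1, hM2, hM3, hM4⟩ := slope_gh hφ hb4 d
  have hM : M ≤ row f g h x + row f g h (x + d) := by
    rcases hM3 with h | h
    · rw [h]; exact edge_bad_g x d hbad
    · rw [h]; exact edge_bad x d hbad
  refine lt_of_lt_of_le ?_ (Nat.mul_le_mul_left _ hM)
  obtain ⟨M', hM'⟩ : ∃ M', n = M + M' := ⟨n - M, by omega⟩
  have eM : n - M = M' := by omega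
  rw [← hn, eM] at hM4
  rw [er] at hb
  -- (M - M')^2 * p^2 > n^2
  have h1 : (n : ℤ) ^ 2 < (p : ℤ) ^ 2 * ((M : ℤ) - M') ^ 2 := by
    have hbz : (4 : ℤ) * p ^ 2 * bad f g h < r * n ^ 2 := by exact_mod_cast hb
    have hrz : (p : ℤ) ^ 2 = r + 1 := by exact_mod_cast hr
    have hMz : (M : ℤ) * M' ≤ bad f g h := by exact_mod_cast hM4
    have hnz : (n : ℤ) = M + M' := by exact_mod_cast hM'
    have hpp : (0 : ℤ) ≤ (p : ℤ) ^ 2 := by positivity
    have h2 : (4 : ℤ) * p ^ 2 * (M * M') ≤ 4 * p ^ 2 * bad f g h := by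
      nlinarith
    have h3 : ((M : ℤ) - M') ^ 2 = n ^ 2 - 4 * (M * M') := by rw [hnz]; ring
    rw [h3]
    have h4 : (r : ℤ) = p ^ 2 - 1 := by linarith
    rw [h4] at hbz
    nlinarith
  have h5 : (n : ℤ) < p * ((M : ℤ) - M') := by
    have h6 : (n : ℤ) ^ 2 < (p * ((M : ℤ) - M')) ^ 2 := by rw [mul_pow]; exact h1
    have h7 : (0 : ℤ) ≤ p * ((M : ℤ) - M') := by
      have : (0 : ℤ) ≤ (M : ℤ) - M' := by omega
      positivity
    exact lt_of_pow_lt_pow_left₀ 2 h7 h6
  have h8 : ((p + 1) * n : ℤ) < 2 * p * M := by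
    have hnz : (n : ℤ) = M + M' := by exact_mod_cast hM'
    nlinarith
  exact_mod_cast h8

/-- if `φ` is additive on the multiples of `d` then `d` is a direction of additivity -/
lemma add_of_zsmul (hs : Star φ) {d : G}
    (h : ∀ i j : ℤ, φ ((i + j) • d) = φ (i • d) + φ (j • d)) : Add φ d := by
  intro e
  refine additive_extend hs (AddSubgroup.zmultiples d) ?_ e (AddSubgroup.mem_zmultiples d)
  intro c hc c' hc'
  obtain ⟨i, rfl⟩ := AddSubgroup.mem_zmultiples_iff.1 hc
  obtain ⟨j, rfl⟩ := AddSubgroup.mem_zmultiples_iff.1 hc'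
  rw [← add_zsmul, h]

/-- the `p` point inequality -/
lemma p_point (hφ : IsSlope h φ) (hs : Star φ) {p : ℕ} [Fact p.Prime]
    (hb : 4 * p ^ 2 * bad f g h < (p ^ 2 - 1) * (Fintype.card G) ^ 2) {d : G}
    (hpd : Add φ (p • d)) (hd : ¬ Add φ d) (x : G) :
    (p ^ 2 - 1) * Fintype.card G ≤ 4 * p * ∑ i : Fin p, row f g h (x + (i : ℕ) • d) := by
  have hp : p.Prime := Fact.out
  set n := Fintype.card G with hn
  let ψ : ℤ → A := fun i => φ (i • d)
  have hψ0 : ψ 0 = 0 := by simp [ψ, hφ.zero]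
  have hψp : ∀ i, ψ (i + p) = ψ i + ψ p := by
    intro i
    simp only [ψ, add_zsmul, natCast_zsmul]
    exact hpd _
  have hnadd : ¬ ∀ i j, ψ (i + j) = ψ i + ψ j := fun hcon => hd (add_of_zsmul hs hcon)
  let F : Fin p → A := fun i => f (x + (i : ℕ) • d)
  let y : Fin p → ℕ := fun i => row f g h (x + (i : ℕ) • d)
  have hedge : ∀ a b : Fin p, F a - F b ≠ ψ ((a : ℕ) - (b : ℕ) : ℤ) →
      (p + 1) * n < 2 * p * (y a + y b) := by
    intro a b hab
    have h1 := edge_big (f := f) (g := g) hφ hp.one_lt hb (x + (b : ℕ) • d)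
      ((((a : ℕ) : ℤ) - ((b : ℕ) : ℤ)) • d)
    have e : x + (b : ℕ) • d + ((((a : ℕ) : ℤ) - ((b : ℕ) : ℤ)) • d) = x + (a : ℕ) • d := by
      rw [sub_zsmul, natCast_zsmul, natCast_zsmul]; abel
    rw [e] at h1
    have h2 := h1 hab
    rw [add_comm (y a)]
    exact h2
  let σ := Tuple.sort y
  have hmono : Monotone (y ∘ σ) := Tuple.monotone_sort y
  have hpair : ∀ i j : Fin p, (i : ℕ) + j = p → (p + 1) * n ≤ 2 * p * (y (σ i) + y (σ j)) := by
    intro i j hij
    by_contra hcon
    push Not at hcon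
    apply hnadd
    refine additive_of_big p ψ hψ0 hψp F ((Iic i).map σ.toEmbedding)
      ((Iic j).map σ.toEmbedding) ⟨σ i, by simp⟩ ⟨σ j, by simp⟩ ?_ ?_
    · intro a ha b hb
      by_contra hne
      have h1 := hedge a b hne
      obtain ⟨a', ha', rfl⟩ := mem_map.1 ha
      obtain ⟨b', hb', rfl⟩ := mem_map.1 hb
      have h2 : y (σ a') ≤ y (σ i) := hmono (mem_Iic.1 ha')
      have h3 : y (σ b') ≤ y (σ j) := hmono (mem_Iic.1 hb')
      have h4 : 2 * p * (y (σ a') + y (σ b')) ≤ 2 * p * (y (σ i) + y (σ j)) :=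
        Nat.mul_le_mul_left _ (by omega)
      have h5 : 2 * p * (y (σ.toEmbedding a') + y (σ.toEmbedding b'))
        = 2 * p * (y (σ a') + y (σ b')) := rfl
      omega
    · rw [card_map, card_map, Fin.card_Iic, Fin.card_Iic]
      omega
  let z : ℕ → ℕ := fun k => if hk : k < p then y (σ ⟨k, hk⟩) else 0
  have hz : ∀ (k : ℕ) (hk : k < p), z k = y (σ ⟨k, hk⟩) := by
    intro k hk; simp only [z, dif_pos hk]
  have hsum : ∑ i : Fin p, y i = ∑ k ∈ range p, z k := by
    rw [← Equiv.sum_comp σ y, Finset.sum_range]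
    refine sum_congr rfl fun i _ => ?_
    rw [hz i i.isLt]
  obtain ⟨q, hq⟩ : ∃ q, p = q + 1 := ⟨p - 1, by have := hp.pos; omega⟩
  have hsum2 : ∑ k ∈ range q, z (k + 1) ≤ ∑ k ∈ range p, z k := by
    rw [hq, sum_range_succ']
    omega
  have hrefl : ∑ k ∈ range q, z (q - 1 - k + 1) = ∑ k ∈ range q, z (k + 1) :=
    sum_range_reflect (fun k => z (k + 1)) q
  have hlow : q * ((p + 1) * n) ≤ 2 * p * (∑ k ∈ range q, z (k + 1)
      + ∑ k ∈ range q, z (q - 1 - k + 1)) := by
    rw [← sum_add_distrib, mul_sum]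
    calc q * ((p + 1) * n) = ∑ _k ∈ range q, (p + 1) * n := by
          rw [sum_const, card_range, smul_eq_mul]
      _ ≤ _ := by
          refine sum_le_sum fun k hk => ?_
          have hk' : k < q := mem_range.1 hk
          rw [hz (k + 1) (by omega), hz (q - 1 - k + 1) (by omega)]
          exact hpair _ _ (by simp only; omega)
  rw [hrefl] at hlow
  have e1 : (p ^ 2 - 1) * n = q * ((p + 1) * n) := by
    have : p ^ 2 - 1 = q * (p + 1) := by
      rw [hq]
      have : (q + 1) ^ 2 = q * (q + 1 + 1) + 1 := by ring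
      omega
    rw [this]; ring
  rw [e1]
  have hfin : ∑ i : Fin p, row f g h (x + (i : ℕ) • d) = ∑ k ∈ range p, z k := hsum
  rw [hfin]
  calc q * ((p + 1) * n) ≤ 2 * p * (∑ k ∈ range q, z (k + 1) + ∑ k ∈ range q, z (k + 1)) := hlow
    _ = 4 * p * ∑ k ∈ range q, z (k + 1) := by ring
    _ ≤ 4 * p * ∑ k ∈ range p, z k := Nat.mul_le_mul_left _ hsum2

/-- the case of an odd prime -/
theorem add_of_prime (hφ : IsSlope h φ) (hs : Star φ) {p : ℕ} [Fact p.Prime]
    (hb : 4 * p ^ 2 * bad f g h < (p ^ 2 - 1) * (Fintype.card G) ^ 2) {d : G}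
    (hpd : Add φ (p • d)) : Add φ d := by
  by_contra hd
  have h1 : ∑ _x : G, (p ^ 2 - 1) * Fintype.card G ≤
      ∑ x : G, 4 * p * ∑ i : Fin p, row f g h (x + (i : ℕ) • d) :=
    sum_le_sum fun x _ => p_point hφ hs hb hpd hd x
  have h2 : ∑ x : G, 4 * p * ∑ i : Fin p, row f g h (x + (i : ℕ) • d)
      = 4 * p * (p * bad f g h) := by
    rw [← mul_sum, sum_comm]
    simp only [sum_row_shift]
    rw [sum_const, card_univ, Fintype.card_fin, smul_eq_mul]
  rw [h2, sum_const, card_univ, smul_eq_mul] at h1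
  nlinarith

end Pool.Agent.H484R3.Cay
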