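import Mathlib
import Pool.Agent.H484R3.CayC

set_option autoImplicit false
set_option linter.unusedSectionVars false

namespace Pool.Agent.H484R3.Cay

open Finset DirectSum

/-- gluing the primary components -/
theorem glue {G G' : Type*} [AddCommGroup G] [AddCommGroup G'] {n : ℕ} (hn : n ≠ 0)
    (hG : ∀ x : G, n • x = 0) (hG' : ∀ x : G', n • x = 0)
    (h : ∀ p : ℕ, p.Prime → p ∣ n →
      Nonempty (Submodule.torsionBy ℤ G ((p ^ n.factorization p : ℕ) : ℤ) ≃+
        Submodule.torsionBy ℤ G' ((p ^ n.factorization p : ℕ) : ℤ))) :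
    Nonempty (G ≃+ G') := by
  classical
  have hprod : ∏ p ∈ n.primeFactors, ((p ^ n.factorization p : ℕ) : ℤ) = n := by
    rw [← Nat.cast_prod]
    congr 1
    exact Nat.prod_factorization_pow_eq_self hn
  have hcop : (n.primeFactors : Set ℕ).Pairwise
      (Function.onFun IsCoprime fun p : ℕ => ((p ^ n.factorization p : ℕ) : ℤ)) := by
    intro p hp q hq hpq
    have hp' : p.Prime := Nat.prime_of_mem_primeFactors (by exact_mod_cast hp)
    have hq' : q.Prime := Nat.prime_of_mem_primeFactors (by exact_mod_cast hq)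
    simp only [Function.onFun]
    rw [Nat.isCoprime_iff_coprime]
    exact Nat.Coprime.pow _ _ ((Nat.coprime_primes hp' hq').2 hpq)
  have h1 : Module.IsTorsionBy ℤ G (∏ p ∈ n.primeFactors, ((p ^ n.factorization p : ℕ) : ℤ)) := by
    intro x
    rw [hprod, natCast_zsmul]
    exact hG x
  have h2 : Module.IsTorsionBy ℤ G' (∏ p ∈ n.primeFactors, ((p ^ n.factorization p : ℕ) : ℤ)) := by
    intro x
    rw [hprod, natCast_zsmul]
    exact hG' x
  have i1 := Submodule.torsionBy_isInternal hcop h1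
  have i2 := Submodule.torsionBy_isInternal hcop h2
  have h' : ∀ p : n.primeFactors, Nonempty
      (Submodule.torsionBy ℤ G (((p : ℕ) ^ n.factorization p : ℕ) : ℤ) ≃+
        Submodule.torsionBy ℤ G' (((p : ℕ) ^ n.factorization p : ℕ) : ℤ)) := fun p =>
    h p (Nat.prime_of_mem_primeFactors p.2) (Nat.dvd_of_mem_primeFactors p.2)
  let u := fun p => (h' p).some
  let e1 := AddEquiv.ofBijective _ i1
  let e2 := AddEquiv.ofBijective _ i2
  exact ⟨e1.symm.trans ((DirectSum.congrAddEquiv u).trans e2)⟩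

lemma torsion_hom {G G' : Type*} [AddCommGroup G] [AddCommGroup G'] (φ : G → G') (m : ℕ)
    (hadd : ∀ x, m • x = 0 → Add φ x) (h0 : φ 0 = 0) (hinj : ∀ x, φ x = 0 → x = 0) :
    ∃ F : Submodule.torsionBy ℤ G (m : ℤ) →+ Submodule.torsionBy ℤ G' (m : ℤ),
      Function.Injective F := by
  have hmem : ∀ x : G, x ∈ Submodule.torsionBy ℤ G (m : ℤ) ↔ m • x = 0 := by
    intro x
    rw [Submodule.mem_torsionBy_iff, natCast_zsmul]
  have hmem' : ∀ x : G', x ∈ Submodule.torsionBy ℤ G' (m : ℤ) ↔ m • x = 0 := by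
    intro x
    rw [Submodule.mem_torsionBy_iff, natCast_zsmul]
  have hmul : ∀ x : G, m • x = 0 → ∀ k : ℕ, φ (k • x) = k • φ x := by
    intro x hx k
    induction k with
    | zero => simpa using h0
    | succ k ih => rw [succ_nsmul, hadd x hx, ih, succ_nsmul]
  let F : Submodule.torsionBy ℤ G (m : ℤ) →+ Submodule.torsionBy ℤ G' (m : ℤ) :=
    { toFun := fun x => ⟨φ x, by
        rw [hmem', ← hmul _ ((hmem _).1 x.2), (hmem _).1 x.2, h0]⟩
      map_zero' := by
        apply Subtype.ext
        simpa using h0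
      map_add' := by
        intro x y
        apply Subtype.ext
        exact hadd _ ((hmem _).1 y.2) _ }
  refine ⟨F, ?_⟩
  rw [injective_iff_map_eq_zero]
  intro x hx
  apply Subtype.ext
  apply hinj
  exact congrArg Subtype.val hx

lemma bad_symm {G G' : Type*} [AddCommGroup G] [Fintype G] [DecidableEq G] [AddCommGroup G']
    [Fintype G'] [DecidableEq G'] (f g h : G ≃ G') :
    bad (f.symm : G' → G) g.symm h.symm = bad (f : G → G') g h := by
  unfold bad
  symm
  refine card_equiv (Equiv.prodCongr f g) ?_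
  rintro ⟨x, y⟩
  simp only [mem_filter, mem_univ, true_and, Equiv.prodCongr_apply, Prod.map_apply,
    Equiv.symm_apply_apply]
  rw [not_iff_not, Equiv.eq_symm_apply]
  exact eq_comm

/-- threshold for the prime `q` -/
def Thr (q b n : ℕ) : Prop :=
  (q = 2 ∧ 4 * b < n * n) ∨ (q ≠ 2 ∧ 4 * q ^ 2 * b < (q ^ 2 - 1) * n ^ 2)

lemma Thr.lt {q b n : ℕ} (hq : q.Prime) (h : Thr q b n) : 4 * b < n * n := by
  rcases h with ⟨_, h⟩ | ⟨_, h⟩
  · exact h
  · have hp2 : 1 ≤ q ^ 2 := Nat.one_le_pow _ _ hq.pos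
    obtain ⟨r, hr⟩ : ∃ r, q ^ 2 = r + 1 := ⟨q ^ 2 - 1, by omega⟩
    have er : q ^ 2 - 1 = r := by omega
    rw [er, hr] at h
    by_contra hcon
    push Not at hcon
    nlinarith

lemma torsion_inj {G G' : Type*} [AddCommGroup G] [Fintype G] [DecidableEq G] [AddCommGroup G']
    [DecidableEq G'] (f g h : G → G') (hh : Function.Injective h) {q : ℕ} (hq : q.Prime)
    (ht : Thr q (bad f g h) (Fintype.card G)) (a : ℕ) :
    ∃ F : Submodule.torsionBy ℤ G ((q ^ a : ℕ) : ℤ) →+ Submodule.torsionBy ℤ G' ((q ^ a : ℕ) : ℤ),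
      Function.Injective F := by
  have hb := ht.lt hq
  choose φ hφ using exists_slope f g h hb
  have hφ' : IsSlope h φ := hφ
  have hs : Star φ := star_of_lt hφ' hb
  have hodd : ∀ d, φ (-d) = -φ d := hφ'.neg
  have h0 : φ 0 = 0 := hφ'.zero
  have hstep : ∀ d, Add φ (q • d) → Add φ d := by
    intro d hd
    rcases ht with ⟨h2, _⟩ | ⟨_, h3⟩
    · rw [h2, two_nsmul] at hd
      exact add_of_two hs hodd hd
    · haveI : Fact q.Prime := ⟨hq⟩
      exact add_of_prime hφ' hs h3 hd
  have hadd : ∀ (a : ℕ) (x : G), (q ^ a) • x = 0 → Add φ x := by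
    intro a
    induction a with
    | zero =>
      intro x hx e
      rw [pow_zero, one_nsmul] at hx
      rw [hx, h0, add_zero, add_zero]
    | succ a ih =>
      intro x hx
      apply hstep
      apply ih
      rw [smul_smul, ← pow_succ]
      exact hx
  refine torsion_hom φ (q ^ a) (hadd a) h0 ?_
  intro x hx
  have h1 := hφ x
  rw [hx] at h1
  have h2 : 0 < cnt h x 0 := by omega
  unfold cnt at h2
  obtain ⟨z, hz⟩ := card_pos.1 h2
  simp only [mem_filter, mem_univ, true_and, sub_eq_zero] at hz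
  have := hh hz
  simpa using this

lemma torsion_equiv_sq {G G' : Type*} [AddCommGroup G] [Fintype G] [DecidableEq G]
    [AddCommGroup G'] [Fintype G'] [DecidableEq G'] (f g h : G ≃ G') {q : ℕ} (hq : q.Prime)
    (ht : Thr q (bad (f : G → G') g h) (Fintype.card G)) (a : ℕ) :
    Nonempty (Submodule.torsionBy ℤ G ((q ^ a : ℕ) : ℤ) ≃+
      Submodule.torsionBy ℤ G' ((q ^ a : ℕ) : ℤ)) := by
  obtain ⟨F, hF⟩ := torsion_inj (f : G → G') g h h.injective hq ht a
  have hc : Fintype.card G = Fintype.card G' := Fintype.card_congr f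
  have ht' : Thr q (bad (f.symm : G' → G) g.symm h.symm) (Fintype.card G') := by
    rw [bad_symm, ← hc]; exact ht
  obtain ⟨F', hF'⟩ := torsion_inj (f.symm : G' → G) g.symm h.symm h.symm.injective hq ht' a
  haveI : Finite (Submodule.torsionBy ℤ G ((q ^ a : ℕ) : ℤ)) := inferInstance
  haveI : Finite (Submodule.torsionBy ℤ G' ((q ^ a : ℕ) : ℤ)) := inferInstance
  have h1 := Nat.card_le_card_of_injective F hF
  have h2 := Nat.card_le_card_of_injective F' hF'
  have hbij : Function.Bijective F := by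
    rw [Nat.bijective_iff_injective_and_card]
    exact ⟨hF, le_antisymm h1 h2⟩
  exact ⟨AddEquiv.ofBijective F hbij⟩

lemma card_torsion_prime {G : Type*} [AddCommGroup G] [Finite G] {q : ℕ} (hq : q.Prime)
    (h1 : q ∣ Nat.card G) (h2 : ¬ q ^ 2 ∣ Nat.card G) :
    Nat.card (Submodule.torsionBy ℤ G (q : ℤ)) = q := by
  classical
  haveI : Fact q.Prime := ⟨hq⟩
  haveI := Fintype.ofFinite G
  set T := Submodule.torsionBy ℤ G (q : ℤ) with hT
  have hmem : ∀ x : G, x ∈ T ↔ q • x = 0 := by
    intro x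
    rw [hT, Submodule.mem_torsionBy_iff, natCast_zsmul]
  have hz : ∀ x : T, q • x = 0 := by
    intro x
    apply Subtype.ext
    exact (hmem x).1 x.2
  letI : Module (ZMod q) T := AddCommGroup.zmodModule hz
  haveI : Fintype T := Fintype.ofFinite T
  have hpow := Module.card_eq_pow_finrank (K := ZMod q) (V := T)
  rw [ZMod.card] at hpow
  have hdvd : Nat.card T ∣ Nat.card G := by
    have := AddSubgroup.card_addSubgroup_dvd_card T.toAddSubgroup
    exact this
  rw [Nat.card_eq_fintype_card] at hdvd ⊢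
  rw [hpow] at hdvd ⊢
  obtain ⟨x, hx⟩ := exists_prime_addOrderOf_dvd_card (G := G) q
    (by rw [← Nat.card_eq_fintype_card]; exact h1)
  have hx0 : x ≠ 0 := by
    rintro rfl
    rw [addOrderOf_zero] at hx
    exact hq.one_lt.ne hx
  have hxT : x ∈ T := by
    rw [hmem, ← hx]
    exact addOrderOf_nsmul_eq_zero x
  have hr : Module.finrank (ZMod q) T ≠ 0 := by
    intro h0
    rw [h0, pow_zero] at hpow
    have hsub : Subsingleton T := Fintype.card_le_one_iff_subsingleton.1 hpow.le
    have := Subsingleton.elim (⟨x, hxT⟩ : T) 0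
    exact hx0 (congrArg Subtype.val this)
  have hr2 : ¬ 2 ≤ Module.finrank (ZMod q) T := by
    intro h3
    exact h2 (dvd_trans (pow_dvd_pow q h3) hdvd)
  have hr1 : Module.finrank (ZMod q) T = 1 := by omega
  rw [hr1, pow_one]

lemma torsion_equiv_one {G G' : Type*} [AddCommGroup G] [Finite G] [AddCommGroup G'] [Finite G']
    {q : ℕ} (hq : q.Prime) (hc : Nat.card G = Nat.card G') (h1 : q ∣ Nat.card G)
    (h2 : ¬ q ^ 2 ∣ Nat.card G) :
    Nonempty (Submodule.torsionBy ℤ G (q : ℤ) ≃+ Submodule.torsionBy ℤ G' (q : ℤ)) := by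
  haveI : Fact q.Prime := ⟨hq⟩
  have e1 := card_torsion_prime hq h1 h2
  have e2 := card_torsion_prime (G := G') hq (hc ▸ h1) (hc ▸ h2)
  haveI := isAddCyclic_of_prime_card e1
  haveI := isAddCyclic_of_prime_card e2
  exact ⟨addEquivOfAddCyclicCardEq (e1.trans e2.symm)⟩

/-- Two abelian groups of the same order whose Cayley tables are close are isomorphic. -/
theorem iso_of_close {G G' : Type*} [AddCommGroup G] [Fintype G] [DecidableEq G]
    [AddCommGroup G'] [Fintype G'] [DecidableEq G'] (f g h : G ≃ G')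
    (ht : ∀ q : ℕ, q.Prime → q ^ 2 ∣ Fintype.card G →
      Thr q (bad (f : G → G') g h) (Fintype.card G)) : Nonempty (G ≃+ G') := by
  have hc : Fintype.card G = Fintype.card G' := Fintype.card_congr f
  refine glue (n := Fintype.card G) Fintype.card_ne_zero (fun x => card_nsmul_eq_zero)
    (fun x => by rw [hc]; exact card_nsmul_eq_zero) ?_
  intro p hp hpn
  by_cases h2 : p ^ 2 ∣ Fintype.card G
  · exact torsion_equiv_sq f g h hp (ht p hp h2) _
  · have hfac : (Fintype.card G).factorization p = 1 := by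
      have h3 : 0 < (Fintype.card G).factorization p :=
        hp.factorization_pos_of_dvd Fintype.card_ne_zero hpn
      have h4 : ¬ 2 ≤ (Fintype.card G).factorization p := by
        intro h5
        exact h2 ((hp.pow_dvd_iff_le_factorization Fintype.card_ne_zero).2 h5)
      omega
    rw [hfac, pow_one]
    refine torsion_equiv_one hp ?_ ?_ ?_
    · rw [Nat.card_eq_fintype_card, Nat.card_eq_fintype_card, hc]
    · rw [Nat.card_eq_fintype_card]; exact hpn
    · rw [Nat.card_eq_fintype_card]; exact h2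

end Pool.Agent.H484R3.Cay
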