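import Mathlib
import Pool.Agent.H484R3.CayA

set_option autoImplicit false
set_option linter.unusedSectionVars false

namespace Pool.Agent.H484R3.Cay

open Finset

lemma sum_Icc_abs (m : ℕ) : ∑ s ∈ Icc (-(m : ℤ)) m, s.natAbs = m * (m + 1) := by
  induction m with
  | zero => simp
  | succ m ih =>
    have e : Icc (-((m + 1 : ℕ) : ℤ)) ((m + 1 : ℕ) : ℤ) =
        insert (((m + 1 : ℕ) : ℤ)) (insert (-((m + 1 : ℕ) : ℤ)) (Icc (-(m : ℤ)) m)) := by
      ext x
      simp only [mem_insert, mem_Icc]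
      push_cast
      omega
    rw [e, sum_insert, sum_insert, ih]
    · rw [Int.natAbs_neg, Int.natAbs_natCast]; ring
    · simp
    · simp only [mem_insert, mem_Icc, not_or]
      push_cast
      constructor <;> omega

/-- the pairs of digits with a carry -/
def carry (p : ℕ) [NeZero p] : Finset (ZMod p × ZMod p) :=
  univ.filter fun z => (z.1 + z.2).valMinAbs ≠ z.1.valMinAbs + z.2.valMinAbs

lemma valMinAbs_bd {m : ℕ} (a : ZMod (2 * m + 1)) :
    -(m : ℤ) ≤ a.valMinAbs ∧ a.valMinAbs ≤ m := by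
  have h := ZMod.valMinAbs_mem_Ioc a
  simp only [Set.mem_Ioc] at h
  push_cast at h
  omega

lemma carry_card (m : ℕ) : (carry (2 * m + 1)).card ≤ m * (m + 1) := by
  have hinj : Function.Injective (fun a : ZMod (2 * m + 1) => a.valMinAbs) := by
    intro a b hab
    have := congrArg (fun z : ℤ => (z : ZMod (2 * m + 1))) hab
    simpa using this
  have h1 : (carry (2 * m + 1)).card =
      ∑ a : ZMod (2 * m + 1), (univ.filter fun b : ZMod (2 * m + 1) =>
        (a + b).valMinAbs ≠ a.valMinAbs + b.valMinAbs).card := by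
    unfold carry
    rw [card_filter, Fintype.sum_prod_type]
    simp only [card_filter]
  rw [h1, ← sum_Icc_abs m]
  have h2 : ∀ a : ZMod (2 * m + 1), (univ.filter fun b : ZMod (2 * m + 1) =>
        (a + b).valMinAbs ≠ a.valMinAbs + b.valMinAbs).card ≤ a.valMinAbs.natAbs := by
    intro a
    have hcond : ∀ b : ZMod (2 * m + 1), (a + b).valMinAbs ≠ a.valMinAbs + b.valMinAbs →
        ¬ (-(m : ℤ) ≤ a.valMinAbs + b.valMinAbs ∧ a.valMinAbs + b.valMinAbs ≤ m) := by
      intro b hb hcon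
      apply hb
      rw [ZMod.valMinAbs_spec]
      refine ⟨by simp, ?_⟩
      simp only [Set.mem_Ioc]
      push_cast
      omega
    have ha := valMinAbs_bd a
    rcases le_total 0 a.valMinAbs with hs | hs
    · have h3 : (univ.filter fun b : ZMod (2 * m + 1) =>
        (a + b).valMinAbs ≠ a.valMinAbs + b.valMinAbs).card ≤
          (Ioc ((m : ℤ) - a.valMinAbs) m).card := by
        refine card_le_card_of_injOn (fun b => b.valMinAbs) ?_ (hinj.injOn)
        intro b hb
        have hb' := hcond b (by simpa using hb)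
        have := valMinAbs_bd b
        simp only [coe_Ioc, Set.mem_Ioc]
        omega
      rw [Int.card_Ioc] at h3
      omega
    · have h3 : (univ.filter fun b : ZMod (2 * m + 1) =>
        (a + b).valMinAbs ≠ a.valMinAbs + b.valMinAbs).card ≤
          (Ico (-(m : ℤ)) (-(m : ℤ) - a.valMinAbs)).card := by
        refine card_le_card_of_injOn (fun b => b.valMinAbs) ?_ (hinj.injOn)
        intro b hb
        have hb' := hcond b (by simpa using hb)
        have := valMinAbs_bd b
        simp only [coe_Ico, Set.mem_Ico]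
        omega
      rw [Int.card_Ico] at h3
      omega
  refine le_trans (sum_le_sum fun a _ => h2 a) ?_
  rw [← sum_image (f := fun s : ℤ => s.natAbs) (g := fun a : ZMod (2 * m + 1) => a.valMinAbs)
    (hinj.injOn)]
  refine sum_le_sum_of_subset ?_
  intro s hs
  obtain ⟨a, _, rfl⟩ := mem_image.1 hs
  rw [mem_Icc]
  exact valMinAbs_bd a

lemma carry_card_two : (carry 2).card ≤ 1 := by
  decide

section constr

variable (p m : ℕ) [NeZero p] [NeZero m]

instance : NeZero (p ^ 2) := ⟨pow_ne_zero 2 (NeZero.ne p)⟩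

/-- the digit map -/
def E (x : ZMod p × (ZMod p × ZMod m)) : ZMod (p ^ 2) × ZMod m :=
  ((x.1.valMinAbs : ZMod (p ^ 2)) + (p : ZMod (p ^ 2)) * ((x.2.1.val : ℕ) : ZMod (p ^ 2)), x.2.2)

lemma E_inj : Function.Injective (E p m) := by
  rintro ⟨a, b, c⟩ ⟨a', b', c'⟩ h
  have hp0 : (p : ℤ) ≠ 0 := by exact_mod_cast NeZero.ne p
  have h1 := congrArg Prod.fst h
  have h2 := congrArg Prod.snd h
  simp only [E] at h1 h2
  have h3 : ((a.valMinAbs + p * b.val : ℤ) : ZMod (p ^ 2)) =
      ((a'.valMinAbs + p * b'.val : ℤ) : ZMod (p ^ 2)) := by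
    push_cast
    exact h1
  rw [ZMod.intCast_eq_intCast_iff_dvd_sub] at h3
  push_cast at h3
  have h4 : (p : ℤ) ∣ a'.valMinAbs - a.valMinAbs := by
    have h5 : (p : ℤ) ∣ (a'.valMinAbs + p * b'.val) - (a.valMinAbs + p * b.val) :=
      dvd_trans (dvd_pow_self _ two_ne_zero) h3
    have h6 : (p : ℤ) ∣ (p : ℤ) * ((b'.val : ℤ) - b.val) := Dvd.intro _ rfl
    have h7 := dvd_sub h5 h6
    have e : (a'.valMinAbs + p * b'.val) - (a.valMinAbs + p * b.val) -
      (p : ℤ) * ((b'.val : ℤ) - b.val) = a'.valMinAbs - a.valMinAbs := by ring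
    rwa [e] at h7
  have haa : a = a' := by
    have h5 : ((a.valMinAbs : ℤ) : ZMod p) = ((a'.valMinAbs : ℤ) : ZMod p) := by
      rw [ZMod.intCast_eq_intCast_iff_dvd_sub]
      exact h4
    simpa using h5
  subst haa
  have h8 : (p : ℤ) ∣ (b'.val : ℤ) - b.val := by
    have e : (a.valMinAbs + p * b'.val) - (a.valMinAbs + p * b.val) =
      (p : ℤ) * ((b'.val : ℤ) - b.val) := by ring
    rw [e, pow_two] at h3
    exact Int.dvd_of_mul_dvd_mul_left hp0 h3
  have hbb : b = b' := by
    have h5 : ((b.val : ℤ) : ZMod p) = ((b'.val : ℤ) : ZMod p) := by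
      rw [ZMod.intCast_eq_intCast_iff_dvd_sub]
      exact h8
    simpa using h5
  subst hbb
  rw [h2]

lemma p_mul_val (b b' : ZMod p) : (p : ZMod (p ^ 2)) * (((b + b').val : ℕ) : ZMod (p ^ 2)) =
    (p : ZMod (p ^ 2)) * ((b.val : ℕ) : ZMod (p ^ 2)) +
      (p : ZMod (p ^ 2)) * ((b'.val : ℕ) : ZMod (p ^ 2)) := by
  rw [ZMod.val_add]
  have h1 : ((p * (b.val + b'.val) : ℕ) : ZMod (p ^ 2)) =
      ((p ^ 2 * ((b.val + b'.val) / p) + p * ((b.val + b'.val) % p) : ℕ) : ZMod (p ^ 2)) := by
    congr 1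
    conv_lhs => rw [← Nat.div_add_mod (b.val + b'.val) p]
    ring
  push_cast at h1
  have h2 : ((p : ZMod (p ^ 2)) ^ 2) = 0 := by
    have := ZMod.natCast_self (p ^ 2)
    push_cast at this
    exact this
  rw [h2, zero_mul, zero_add] at h1
  rw [← h1]; ring

lemma E_add (x y : ZMod p × (ZMod p × ZMod m)) (h : (x.1, y.1) ∉ carry p) :
    E p m x + E p m y = E p m (x + y) := by
  simp only [carry, mem_filter, mem_univ, true_and, not_not] at h
  simp only [E, Prod.fst_add, Prod.snd_add, Prod.mk_add_mk, Prod.mk.injEq, and_true]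
  rw [h, p_mul_val]
  push_cast
  ring

lemma bad_E : bad (E p m) (E p m) (E p m) ≤ (carry p).card * (p * m) ^ 2 := by
  have h1 : (carry p).card * (p * m) ^ 2 =
      (carry p ×ˢ (univ : Finset ((ZMod p × ZMod m) × (ZMod p × ZMod m)))).card := by
    rw [card_product, card_univ, Fintype.card_prod, Fintype.card_prod, ZMod.card, ZMod.card]
    ring
  rw [h1]
  unfold bad
  refine card_le_card_of_injOn (fun z => ((z.1.1, z.2.1), (z.1.2, z.2.2))) ?_ ?_
  · intro z hz
    simp only [coe_filter, Set.mem_ofPred_eq, mem_univ, true_and] at hz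
    simp only [coe_product, Set.mem_prod, mem_coe, mem_univ, and_true]
    by_contra hcon
    exact hz (E_add p m z.1 z.2 hcon)
  · rintro ⟨⟨a, b⟩, ⟨c, d⟩⟩ _ ⟨⟨a', b'⟩, ⟨c', d'⟩⟩ _ h
    simp only [Prod.mk.injEq] at h ⊢
    tauto

end constr

end Pool.Agent.H484R3.Cay
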