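import Mathlib
import Pool.Agent.H484R3.CayD
import Pool.Agent.H484R3.CayE

set_option autoImplicit false
set_option linter.unusedSectionVars false

namespace Pool.Agent.H484R3.Cay

open Finset

/-- the number of solutions of `q • x = 0` -/
def tor (q : ℕ) (H : Type) [AddCommGroup H] [Fintype H] [DecidableEq H] : ℕ :=
  (univ.filter fun x : H => q • x = 0).card

lemma tor_prod (q : ℕ) (H K : Type) [AddCommGroup H] [Fintype H] [DecidableEq H]
    [AddCommGroup K] [Fintype K] [DecidableEq K] : tor q (H × K) = tor q H * tor q K := by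
  unfold tor
  rw [← card_product]
  congr 1
  ext ⟨x, y⟩
  simp [Prod.ext_iff]

lemma tor_congr (q : ℕ) {H K : Type} [AddCommGroup H] [Fintype H] [DecidableEq H]
    [AddCommGroup K] [Fintype K] [DecidableEq K] (e : H ≃+ K) : tor q H = tor q K := by
  unfold tor
  refine card_equiv e.toEquiv ?_
  intro x
  simp only [mem_filter, mem_univ, true_and, AddEquiv.toEquiv_eq_coe, AddEquiv.coe_toEquiv]
  rw [← map_nsmul, EmbeddingLike.map_eq_zero_iff]

lemma tor_self (p : ℕ) [NeZero p] : tor p (ZMod p) = p := by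
  unfold tor
  have : (univ.filter fun x : ZMod p => p • x = 0) = univ := by
    ext x
    simp
  rw [this, card_univ, ZMod.card]

lemma tor_pos (q : ℕ) (H : Type) [AddCommGroup H] [Fintype H] [DecidableEq H] :
    0 < tor q H := card_pos.2 ⟨0, by simp⟩

lemma not_iso (p m : ℕ) [NeZero p] [NeZero m] (hp : 1 < p) :
    IsEmpty ((ZMod p × (ZMod p × ZMod m)) ≃+ (ZMod (p ^ 2) × ZMod m)) := by
  refine ⟨fun e => ?_⟩
  have h1 := tor_congr p e
  rw [tor_prod, tor_prod, tor_prod, tor_self, ← mul_assoc] at h1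
  have h2 := Nat.eq_of_mul_eq_mul_right (tor_pos p (ZMod m)) h1
  have h3 : (univ.filter fun x : ZMod (p ^ 2) => p • x = 0) = univ := by
    refine eq_of_subset_of_card_le (subset_univ _) ?_
    rw [card_univ, ZMod.card]
    have : tor p (ZMod (p ^ 2)) = (univ.filter fun x : ZMod (p ^ 2) => p • x = 0).card := rfl
    rw [← this, ← h2, pow_two]
  have h4 : (1 : ZMod (p ^ 2)) ∈ (univ.filter fun x : ZMod (p ^ 2) => p • x = 0) := by
    rw [h3]; exact mem_univ _
  simp only [mem_filter, mem_univ, true_and, nsmul_eq_mul, mul_one] at h4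
  rw [ZMod.natCast_eq_zero_iff] at h4
  have h5 := Nat.le_of_dvd (by omega) h4
  nlinarith

/-- `A` is a Cayley table of the group `H`. -/
def IsCayleyTable (n : ℕ) (H : Type) [Group H] (A : Fin n → Fin n → Fin n) : Prop :=
  ∃ α β γ : Fin n ≃ H, ∀ i j, γ (A i j) = α i * β j

/-- `A` with the cells of `S` deleted determines `G`. -/
def Determines (n : ℕ) (G : Type) [CommGroup G] (A : Fin n → Fin n → Fin n)
    (S : Finset (Fin n × Fin n)) : Prop :=
  ∀ (G' : Type) [CommGroup G'] (A' : Fin n → Fin n → Fin n), IsCayleyTable n G' A' →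
    (∀ i j, (i, j) ∉ S → A' i j = A i j) → Nonempty (G' ≃* G)

/-- the property of `k` whose greatest solution is `k(n)` -/
def Good (n k : ℕ) : Prop :=
  k ≤ n ^ 2 ∧ ∀ (G : Type) [CommGroup G] (A : Fin n → Fin n → Fin n), IsCayleyTable n G A →
    ∀ S : Finset (Fin n × Fin n), S.card = k → Determines n G A S

/-- the cells in which two arrays differ -/
def diff {n : ℕ} (A A' : Fin n → Fin n → Fin n) : Finset (Fin n × Fin n) :=
  univ.filter fun z => A' z.1 z.2 ≠ A z.1 z.2

/-- two tables with few differences give isomorphic groups -/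
theorem iso_of_diff {n : ℕ} {G G' : Type} [CommGroup G] [CommGroup G']
    {A A' : Fin n → Fin n → Fin n} (hA : IsCayleyTable n G A) (hA' : IsCayleyTable n G' A')
    (ht : ∀ q : ℕ, q.Prime → q ^ 2 ∣ n → Thr q (diff A A').card n) : Nonempty (G' ≃* G) := by
  classical
  obtain ⟨α, β, γ, h⟩ := hA
  obtain ⟨α', β', γ', h'⟩ := hA'
  letI : Fintype (Additive G) := Fintype.ofEquiv _ (α.trans Additive.ofMul)
  letI : Fintype (Additive G') := Fintype.ofEquiv _ (α'.trans Additive.ofMul)
  have hcard : Fintype.card (Additive G) = n := by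
    rw [← Fintype.card_congr (α.trans Additive.ofMul), Fintype.card_fin]
  let a : Fin n ≃ Additive G := α.trans Additive.ofMul
  let b : Fin n ≃ Additive G := β.trans Additive.ofMul
  let c : Fin n ≃ Additive G := γ.trans Additive.ofMul
  let a' : Fin n ≃ Additive G' := α'.trans Additive.ofMul
  let b' : Fin n ≃ Additive G' := β'.trans Additive.ofMul
  let c' : Fin n ≃ Additive G' := γ'.trans Additive.ofMul
  have hh : ∀ i j, c (A i j) = a i + b j := fun i j => congrArg Additive.ofMul (h i j)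
  have hh' : ∀ i j, c' (A' i j) = a' i + b' j := fun i j => congrArg Additive.ofMul (h' i j)
  let f : Additive G ≃ Additive G' := a.symm.trans a'
  let g : Additive G ≃ Additive G' := b.symm.trans b'
  let k : Additive G ≃ Additive G' := c.symm.trans c'
  have hbad : bad (f : Additive G → Additive G') g k = (diff A A').card := by
    unfold bad diff
    symm
    refine card_equiv (Equiv.prodCongr a b) ?_
    rintro ⟨i, j⟩
    rw [mem_filter, mem_filter]
    have e1 : f (a i) = a' i := by simp only [f, Equiv.trans_apply, Equiv.symm_apply_apply]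
    have e2 : g (b j) = b' j := by simp only [g, Equiv.trans_apply, Equiv.symm_apply_apply]
    have e3 : k (a i + b j) = c' (A i j) := by
      rw [← hh]; simp only [k, Equiv.trans_apply, Equiv.symm_apply_apply]
    simp only [mem_univ, true_and, Equiv.prodCongr_apply, Prod.map_apply]
    rw [e1, e2, e3, ← hh', not_iff_not]
    constructor
    · intro e; rw [e]
    · intro e; exact c'.injective e
  have hiso := iso_of_close f g k (by rw [hbad, hcard]; exact ht)
  obtain ⟨e⟩ := hiso
  exact ⟨(MulEquiv.toAdditive.symm e).symm⟩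

lemma carry_bound {p : ℕ} [NeZero p] (hp : p.Prime) (hodd : p ≠ 2) :
    4 * (carry p).card ≤ p ^ 2 - 1 := by
  obtain ⟨k, rfl⟩ : ∃ k, p = 2 * k + 1 := by
    rcases hp.eq_two_or_odd' with h | h
    · exact absurd h hodd
    · exact h
  have h1 := carry_card k
  have h2 : (2 * k + 1) ^ 2 = 4 * (k * (k + 1)) + 1 := by ring
  have h3 : (carry (2 * k + 1)).card ≤ k * (k + 1) := by
    convert h1
  omega

/-- for a prime square divisor there are close tables of non-isomorphic groups -/
theorem exists_close {n p D : ℕ} (hn : n ≠ 0) (hp : p.Prime) (hpn : p ^ 2 ∣ n)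
    (hD : (p = 2 ∧ n ^ 2 ≤ 4 * D) ∨ (p ≠ 2 ∧ (p ^ 2 - 1) * n ^ 2 ≤ 4 * p ^ 2 * D)) :
    ∃ (G G' : Type) (_ : CommGroup G) (_ : CommGroup G') (A A' : Fin n → Fin n → Fin n),
      IsCayleyTable n G A ∧ IsCayleyTable n G' A' ∧ IsEmpty (G' ≃* G) ∧
      (diff A A').card ≤ D := by
  obtain ⟨m, rfl⟩ := hpn
  have hm : m ≠ 0 := by rintro rfl; simp at hn
  haveI : NeZero p := ⟨hp.ne_zero⟩
  haveI : NeZero m := ⟨hm⟩
  have hc1 : Fintype.card (ZMod p × (ZMod p × ZMod m)) = p ^ 2 * m := by
    simp only [Fintype.card_prod, ZMod.card]; ring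
  have hc2 : Fintype.card (ZMod (p ^ 2) × ZMod m) = p ^ 2 * m := by
    simp only [Fintype.card_prod, ZMod.card]
  let e : Fin (p ^ 2 * m) ≃ ZMod p × (ZMod p × ZMod m) :=
    (Fintype.equivFinOfCardEq hc1).symm
  have hEbij : Function.Bijective (E p m) := by
    rw [Fintype.bijective_iff_injective_and_card]
    exact ⟨E_inj p m, by rw [hc1, hc2]⟩
  let u : (ZMod p × (ZMod p × ZMod m)) ≃ (ZMod (p ^ 2) × ZMod m) := Equiv.ofBijective _ hEbij
  have hu : ∀ x, u x = E p m x := fun x => rfl
  let A : Fin (p ^ 2 * m) → Fin (p ^ 2 * m) → Fin (p ^ 2 * m) :=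
    fun i j => e.symm (u.symm (u (e i) + u (e j)))
  let A' : Fin (p ^ 2 * m) → Fin (p ^ 2 * m) → Fin (p ^ 2 * m) :=
    fun i j => e.symm (e i + e j)
  refine ⟨Multiplicative (ZMod (p ^ 2) × ZMod m), Multiplicative (ZMod p × (ZMod p × ZMod m)),
    inferInstance, inferInstance, A, A', ?_, ?_, ?_, ?_⟩
  · refine ⟨e.trans (u.trans Multiplicative.ofAdd), e.trans (u.trans Multiplicative.ofAdd),
      e.trans (u.trans Multiplicative.ofAdd), ?_⟩
    intro i j
    simp only [A, Equiv.trans_apply, Equiv.apply_symm_apply]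
    rfl
  · refine ⟨e.trans Multiplicative.ofAdd, e.trans Multiplicative.ofAdd,
      e.trans Multiplicative.ofAdd, ?_⟩
    intro i j
    simp only [A', Equiv.trans_apply, Equiv.apply_symm_apply]
    rfl
  · refine ⟨fun w => ?_⟩
    exact (not_iso p m hp.one_lt).false (AddEquiv.toMultiplicative.symm w)
  · have hdiff : (diff A A').card = bad (E p m) (E p m) (E p m) := by
      unfold diff bad
      refine card_equiv (Equiv.prodCongr e e) ?_
      rintro ⟨i, j⟩
      rw [mem_filter, mem_filter]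
      simp only [mem_univ, true_and, Equiv.prodCongr_apply, Prod.map_apply, A, A']
      rw [not_iff_not, e.symm.injective.eq_iff, Equiv.eq_symm_apply, hu, hu, hu]
      exact eq_comm
    rw [hdiff]
    refine le_trans (bad_E p m) ?_
    rcases hD with ⟨h2, hD⟩ | ⟨h2, hD⟩
    · subst h2
      have h3 : (carry 2).card ≤ 1 := by
        have := carry_card_two
        convert this
      nlinarith
    · have h3 := carry_bound hp h2
      have hpp : 0 < p ^ 2 := pow_pos hp.pos 2
      have h4 : (p ^ 2 - 1) * (p * m) ^ 2 ≤ 4 * D := by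
        have h5 : p ^ 2 * ((p ^ 2 - 1) * (p * m) ^ 2) ≤ p ^ 2 * (4 * D) := by
          calc p ^ 2 * ((p ^ 2 - 1) * (p * m) ^ 2) = (p ^ 2 - 1) * (p ^ 2 * m) ^ 2 := by ring
            _ ≤ 4 * p ^ 2 * D := hD
            _ = p ^ 2 * (4 * D) := by ring
        exact Nat.le_of_mul_le_mul_left h5 hpp
      have h6 : 4 * ((carry p).card * (p * m) ^ 2) ≤ (p ^ 2 - 1) * (p * m) ^ 2 := by
        rw [← mul_assoc]
        exact Nat.mul_le_mul_right _ h3
      omega

/-- upper bound for `k` -/
theorem lt_of_good {n p D k : ℕ} (hn : n ≠ 0) (hp : p.Prime) (hpn : p ^ 2 ∣ n)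
    (hD : (p = 2 ∧ n ^ 2 ≤ 4 * D) ∨ (p ≠ 2 ∧ (p ^ 2 - 1) * n ^ 2 ≤ 4 * p ^ 2 * D))
    (hk : Good n k) : k < D := by
  by_contra hcon
  push Not at hcon
  obtain ⟨G, G', iG, iG', A, A', hA, hA', hne, hd⟩ := exists_close hn hp hpn hD
  obtain ⟨hk1, hk2⟩ := hk
  obtain ⟨S, hS1, -, hS2⟩ := exists_subsuperset_card_eq (subset_univ (diff A A'))
    (le_trans hd hcon) (by
      rw [card_univ, Fintype.card_prod, Fintype.card_fin, ← pow_two]; exact hk1)
  have h1 := hk2 G A hA S hS2 G' A' hA' (by
    intro i j hij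
    by_contra hne'
    apply hij
    apply hS1
    simp only [diff, mem_filter, mem_univ, true_and]
    exact hne')
  exact hne.false h1.some

/-- lower bound for `k` -/
theorem good_of_thr {n k : ℕ} (hk : k ≤ n ^ 2)
    (ht : ∀ q : ℕ, q.Prime → q ^ 2 ∣ n → Thr q k n) : Good n k := by
  refine ⟨hk, ?_⟩
  intro G _ A hA S hS G' _ A' hA' hagree
  refine iso_of_diff hA hA' ?_
  intro q hq hqn
  have h1 : (diff A A').card ≤ k := by
    rw [← hS]
    refine card_le_card ?_
    rintro ⟨i, j⟩ hij
    by_contra hnot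
    simp only [diff, mem_filter, mem_univ, true_and] at hij
    exact hij (hagree i j hnot)
  rcases ht q hq hqn with ⟨h2, h3⟩ | ⟨h2, h3⟩
  · left
    exact ⟨h2, by omega⟩
  · right
    refine ⟨h2, lt_of_le_of_lt ?_ h3⟩
    exact Nat.mul_le_mul_left _ h1

end Pool.Agent.H484R3.Cay
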