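import Mathlib

set_option autoImplicit false

namespace Pool.Agent.H484R3.Circ

/-- A family of `k` pairwise disjoint connected vertex sets, any two joined by an edge. -/
def CliqueMinor {V : Type*} (G : SimpleGraph V) (k : ℕ) : Prop :=
  ∃ f : Fin k → Set V,
    (∀ i, (G.induce (f i)).Connected) ∧
    (∀ i j, i ≠ j → Disjoint (f i) (f j)) ∧
    (∀ i j, i ≠ j → ∃ u ∈ f i, ∃ v ∈ f j, G.Adj u v)

/-- No three distinct pairwise nonadjacent vertices. -/
def AlphaTwo {V : Type*} (G : SimpleGraph V) : Prop :=
  ∀ x y z : V, x ≠ y → y ≠ z → x ≠ z → G.Adj x y ∨ G.Adj y z ∨ G.Adj x z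

theorem induce_pair_connected {V : Type*} (G : SimpleGraph V) {x y : V} (h : G.Adj x y) :
    (G.induce ({x, y} : Set V)).Connected := by
  exact SimpleGraph.induce_pair_connected_of_adj h

theorem induce_single_connected {V : Type*} (G : SimpleGraph V) (x : V) :
    (G.induce ({x} : Set V)).Connected := by
  have : Subsingleton ({x} : Set V) := by
    constructor
    rintro ⟨a, ha⟩ ⟨b, hb⟩
    simp only [Set.mem_singleton_iff] at ha hb
    subst ha; subst hb; rfl
  have : Nonempty ({x} : Set V) := ⟨⟨x, rfl⟩⟩
  exact ⟨fun a b => by rw [Subsingleton.elim a b]⟩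

theorem cliqueMinor_of_clique {V : Type*} (G : SimpleGraph V) {k : ℕ} (g : Fin k → V)
    (hg : Function.Injective g) (h : ∀ i j, g i ≠ g j → G.Adj (g i) (g j)) :
    CliqueMinor G k := by
  refine ⟨fun i => {g i}, fun i => induce_single_connected G _, ?_, ?_⟩
  · intro i j hij
    rw [Set.disjoint_singleton]
    exact fun e => hij (hg e)
  · intro i j hij
    exact ⟨g i, rfl, g j, rfl, h i j (fun e => hij (hg e))⟩

theorem CliqueMinor.map {V W : Type*} {G : SimpleGraph V} {H : SimpleGraph W} {k : ℕ}
    (e : G ≃g H) (h : CliqueMinor G k) : CliqueMinor H k := by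
  obtain ⟨f, h1, h2, h3⟩ := h
  refine ⟨fun i => e '' f i, ?_, ?_, ?_⟩
  · intro i
    have e' : G.induce (f i) ≃g H.induce (e '' f i) := by
      refine ⟨e.toEquiv.image (f i), ?_⟩
      rintro ⟨a, ha⟩ ⟨b, hb⟩
      simp only [SimpleGraph.comap_adj, Function.Embedding.subtype_apply]
      exact e.map_rel_iff
    exact e'.connected_iff.mp (h1 i)
  · intro i j hij
    exact (Set.disjoint_image_iff e.injective).mpr (h2 i j hij)
  · intro i j hij
    obtain ⟨u, hu, v, hv, huv⟩ := h3 i j hij
    exact ⟨e u, ⟨u, hu, rfl⟩, e v, ⟨v, hv, rfl⟩, e.map_rel_iff.mpr huv⟩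

section Cayley

variable {A : Type*} [AddCommGroup A]

/-- Translation invariance. -/
def TransInv (G : SimpleGraph A) : Prop := ∀ x y z : A, G.Adj (x + z) (y + z) ↔ G.Adj x y

theorem adj_iff_sub {G : SimpleGraph A} (hG : TransInv G) (x y : A) :
    G.Adj x y ↔ G.Adj 0 (y - x) := by
  have := hG 0 (y - x) x
  rw [zero_add, sub_add_cancel] at this
  exact this

theorem adj_neg {G : SimpleGraph A} (hG : TransInv G) (x : A) :
    G.Adj 0 (-x) ↔ G.Adj 0 x := by
  rw [← zero_sub, ← adj_iff_sub hG x 0, G.adj_comm]

/-- The key lemma: if `2d` is a nonneighbour difference then any two disjoint pairs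
`{x, x+d}`, `{y, y+d}` are joined by an edge. -/
theorem touch {G : SimpleGraph A} (hG : TransInv G) (hα : AlphaTwo G) {d : A}
    (h0 : d + d ≠ 0) (hd : ¬ G.Adj 0 (d + d)) (x y : A) (h1 : x ≠ y) (h2 : x ≠ y + d)
    (h3 : y ≠ x + d) :
    ∃ u ∈ ({x, x + d} : Set A), ∃ v ∈ ({y, y + d} : Set A), G.Adj u v := by
  by_contra hcon
  push Not at hcon
  have e1 := hcon x (by simp) y (by simp)
  have e2 := hcon x (by simp) (y + d) (by simp)
  have e3 := hcon (x + d) (by simp) y (by simp)
  have e4 := hcon (x + d) (by simp) (y + d) (by simp)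
  -- the triple `x + d`, `y`, and ... : z + d and z - d differ by 2d
  -- vertices 0, z + d, z - d
  rw [adj_iff_sub hG] at e2 e3
  have hne1 : (0 : A) ≠ y + d - x := fun h => h2 (by
    have : x = y + d := by
      rw [eq_comm, sub_eq_zero] at h
      exact h.symm
    exact this)
  have hne2 : (0 : A) ≠ y - (x + d) := fun h => h3 (by
    rw [eq_comm, sub_eq_zero] at h
    exact h)
  have hne3 : y + d - x ≠ y - (x + d) := by
    intro h
    apply h0
    have : (y + d - x) - (y - (x + d)) = d + d := by abel
    rw [← this, h, sub_self]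
  rcases hα 0 (y + d - x) (y - (x + d)) hne1 hne3 hne2 with h | h | h
  · exact e2 h
  · rw [G.adj_comm, adj_iff_sub hG] at h
    have : y + d - x - (y - (x + d)) = d + d := by abel
    rw [this] at h
    exact hd h
  · exact e3 h

theorem adj_half {G : SimpleGraph A} (hG : TransInv G) (hα : AlphaTwo G) {d : A}
    (h0 : d + d ≠ 0) (hd : ¬ G.Adj 0 (d + d)) : G.Adj 0 d := by
  have hd0 : d ≠ 0 := by
    rintro rfl
    exact h0 (by simp)
  rcases hα 0 d (d + d) hd0.symm (by
      intro h
      apply hd0
      have : d + 0 = d + d := by rw [add_zero]; exact h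
      exact (add_left_cancel this).symm) h0.symm with h | h | h
  · exact h
  · rw [adj_iff_sub hG, add_sub_cancel_right] at h
    exact h
  · exact absurd h hd

theorem minor_of_matching {G : SimpleGraph A} (hG : TransInv G) (hα : AlphaTwo G) {d : A}
    (h0 : d + d ≠ 0) (hd : ¬ G.Adj 0 (d + d)) {k : ℕ} (g : Fin k → A)
    (hg : Function.Injective g) (hgd : ∀ i j, g i ≠ g j + d) : CliqueMinor G k := by
  refine ⟨fun i => {g i, g i + d}, ?_, ?_, ?_⟩
  · intro i
    apply induce_pair_connected
    rw [adj_iff_sub hG, add_sub_cancel_left]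
    exact adj_half hG hα h0 hd
  · intro i j hij
    rw [Set.disjoint_left]
    intro z hz hz'
    simp only [Set.mem_insert_iff, Set.mem_singleton_iff] at hz hz'
    rcases hz with rfl | rfl <;> rcases hz' with h | h
    · exact hij (hg h)
    · exact hgd i j h
    · exact hgd j i h.symm
    · exact hij (hg (add_right_cancel h))
  · intro i j hij
    exact touch hG hα h0 hd (g i) (g j) (fun e => hij (hg e)) (hgd i j) (hgd j i)

/-- A set of first endpoints of a perfect matching in direction `d`. -/
theorem exists_alternating (d : A) (hd : Even (addOrderOf d)) :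
    ∃ P : Set A, ∀ x, x + d ∈ P ↔ x ∉ P := by
  classical
  let o : A → A := fun x => (QuotientAddGroup.mk (s := AddSubgroup.zmultiples d) x).out
  have ho : ∀ x, o (x + d) = o x := by
    intro x
    have : (QuotientAddGroup.mk (s := AddSubgroup.zmultiples d) (x + d)) =
        QuotientAddGroup.mk (s := AddSubgroup.zmultiples d) x := by
      rw [QuotientAddGroup.eq]
      refine ⟨-1, ?_⟩
      simp
    show (QuotientAddGroup.mk (s := AddSubgroup.zmultiples d) (x + d)).out = _
    rw [this]
  have hx : ∀ x, ∃ m : ℤ, m • d = x - o x := by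
    intro x
    have h := QuotientAddGroup.eq.mp
      (Quotient.out_eq' (QuotientAddGroup.mk (s := AddSubgroup.zmultiples d) x))
    obtain ⟨m, hm⟩ := h
    refine ⟨m, ?_⟩
    simp only at hm
    rw [hm]
    show -(o x) + x = x - o x
    abel
  refine ⟨{x | ∃ m : ℤ, Even m ∧ m • d = x - o x}, ?_⟩
  intro x
  constructor
  · rintro ⟨m, hm, hmd⟩ ⟨m', hm', hmd'⟩
    rw [ho] at hmd
    have : (m - m' - 1) • d = 0 := by
      rw [sub_smul, sub_smul, hmd, hmd', one_smul]
      abel
    have h2 : (2 : ℤ) ∣ m - m' - 1 := by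
      have h3 := addOrderOf_dvd_iff_zsmul_eq_zero.mpr this
      have h4 : (2 : ℤ) ∣ (addOrderOf d : ℤ) := by
        exact_mod_cast hd.two_dvd
      exact h4.trans h3
    obtain ⟨a, ha⟩ := hm
    obtain ⟨b, hb⟩ := hm'
    omega
  · intro h
    obtain ⟨m, hm⟩ := hx x
    refine ⟨m + 1, ?_, ?_⟩
    · have : ¬ Even m := fun e => h ⟨m, e, hm⟩
      rw [Int.not_even_iff_odd] at this
      exact this.add_one
    · rw [ho, add_smul, hm, one_smul]
      abel

theorem card_alternating [Fintype A] (d : A) (P : Set A) [DecidablePred (· ∈ P)]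
    (hP : ∀ x, x + d ∈ P ↔ x ∉ P) : 2 * Fintype.card P = Fintype.card A := by
  classical
  have e : P ≃ (Pᶜ : Set A) := by
    refine ⟨fun x => ⟨x.1 + d, ?_⟩, fun x => ⟨x.1 - d, ?_⟩, ?_, ?_⟩
    · intro h
      exact (hP x.1).mp h x.2
    · by_contra h
      have := (hP (x.1 - d)).mpr h
      rw [sub_add_cancel] at this
      exact x.2 this
    · intro x
      simp
    · intro x
      simp
  have h1 := Fintype.card_congr e
  have h2 := Fintype.card_compl_set P
  have h3 : Fintype.card P ≤ Fintype.card A := Fintype.card_subtype_le _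
  omega

theorem colorable_even [Fintype A] {G : SimpleGraph A} (hG : TransInv G) {b : A}
    (hb : ¬ G.Adj 0 b) (he : Even (addOrderOf b)) {k : ℕ} (hk : Fintype.card A ≤ 2 * k) :
    G.Colorable k := by
  classical
  obtain ⟨P, hP⟩ := exists_alternating b he
  have hc := card_alternating b P hP
  have hmem : ∀ x, x ∉ P → x - b ∈ P := by
    intro x hx
    by_contra h
    have := (hP (x - b)).mpr h
    rw [sub_add_cancel] at this
    exact hx this
  let c : A → P := fun x => if h : x ∈ P then ⟨x, h⟩ else ⟨x - b, hmem x h⟩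
  have hcol : G.Coloring P := by
    refine SimpleGraph.Coloring.mk c ?_
    intro x y hxy hcc
    have hxy' := hxy.ne
    by_cases hx : x ∈ P <;> by_cases hy : y ∈ P
    · simp only [c, hx, hy, dif_pos] at hcc
      exact hxy' (by simpa using hcc)
    · simp only [c, hx, hy, dif_pos, dif_neg, not_false_eq_true, Subtype.mk.injEq] at hcc
      rw [adj_iff_sub hG, hcc] at hxy
      have : y - (y - b) = b := by abel
      rw [this] at hxy
      exact hb hxy
    · simp only [c, hx, hy, dif_pos, dif_neg, not_false_eq_true, Subtype.mk.injEq] at hcc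
      rw [G.adj_comm, adj_iff_sub hG, ← hcc] at hxy
      have : x - (x - b) = b := by abel
      rw [this] at hxy
      exact hb hxy
    · simp only [c, hx, hy, dif_neg, not_false_eq_true, Subtype.mk.injEq] at hcc
      exact hxy' (by simpa using hcc)
  exact hcol.colorable.mono (by omega)

/-- Abelian groups with exactly one involution. -/
theorem hadwiger_even [Fintype A] {G : SimpleGraph A} (hG : TransInv G) (hα : AlphaTwo G)
    {t : A} (ht0 : t ≠ 0) (ht : ∀ s : A, s + s = 0 ↔ s = 0 ∨ s = t)
    {b : A} (hb : ¬ G.Adj 0 b) (he : Even (addOrderOf b)) {k : ℕ} (hk : ¬ G.Colorable k) :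
    CliqueMinor G (k + 1) := by
  classical
  have hkn : 2 * (k + 1) ≤ Fintype.card A := by
    have h1 : 2 * k < Fintype.card A := by
      by_contra h
      exact hk (colorable_even hG hb he (by omega))
    have h2 : 2 ∣ Fintype.card A := he.two_dvd.trans (addOrderOf_dvd_card)
    omega
  by_cases hex : ∃ d : A, d + d ≠ 0 ∧ ¬ G.Adj 0 (d + d)
  · obtain ⟨d₀, h0, hd⟩ := hex
    obtain ⟨d, hdd, hev⟩ : ∃ d : A, d + d = d₀ + d₀ ∧ Even (addOrderOf d) := by
      by_cases hev : Even (addOrderOf d₀)
      · exact ⟨d₀, rfl, hev⟩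
      · refine ⟨d₀ + t, ?_, ?_⟩
        · have : t + t = 0 := (ht t).mpr (Or.inr rfl)
          calc d₀ + t + (d₀ + t) = d₀ + d₀ + (t + t) := by abel
            _ = d₀ + d₀ := by rw [this, add_zero]
        · by_contra hodd
          rw [Nat.not_even_iff_odd] at hev hodd
          have htt : t + t = 0 := (ht t).mpr (Or.inr rfl)
          have hmul : ∀ m : ℕ, Odd m → m • t = t := by
            rintro m ⟨r, rfl⟩
            rw [add_smul, one_smul, mul_comm, mul_smul, two_smul, htt, smul_zero, zero_add]
          have h1 : (addOrderOf d₀ * addOrderOf (d₀ + t)) • (d₀ + t) = 0 := by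
            rw [mul_smul, addOrderOf_nsmul_eq_zero, smul_zero]
          have h2 : (addOrderOf d₀ * addOrderOf (d₀ + t)) • d₀ = 0 := by
            rw [mul_comm, mul_smul, addOrderOf_nsmul_eq_zero, smul_zero]
          rw [smul_add, h2, zero_add, hmul _ (hev.mul hodd)] at h1
          exact ht0 h1
    rw [← hdd] at h0 hd
    obtain ⟨P, hP⟩ := exists_alternating d hev
    have hc := card_alternating d P hP
    have hcard : Fintype.card (Fin (k + 1)) ≤ Fintype.card P := by
      rw [Fintype.card_fin]; omega
    obtain ⟨g⟩ := Function.Embedding.nonempty_of_card_le hcard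
    refine minor_of_matching hG hα h0 hd (fun i => (g i).1)
      (fun i j h => g.injective (Subtype.ext h)) ?_
    intro i j h
    have : (g j).1 + d ∈ P := by
      rw [← h]; exact (g i).2
    exact (hP _).mp this (g j).2
  · push Not at hex
    -- `2A` is a clique of size `|A|/2`
    let S : Finset A := Finset.univ.image (fun x : A => x + x)
    have hS : Fintype.card A ≤ 2 * S.card := by
      have h1 : (Finset.univ : Finset A).card ≤ 2 * S.card := by
        refine Finset.card_le_mul_card_image_of_maps_to (f := fun x : A => x + x)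
          (fun x _ => Finset.mem_image_of_mem _ (Finset.mem_univ x)) 2 ?_
        intro s hs
        obtain ⟨x, -, hx⟩ := Finset.mem_image.mp hs
        have : (Finset.univ.filter (fun y : A => y + y = s)) ⊆ {x, x + t} := by
          intro y hy
          simp only [Finset.mem_filter, Finset.mem_univ, true_and] at hy
          have : (y - x) + (y - x) = 0 := by
            have : (y - x) + (y - x) = (y + y) - (x + x) := by abel
            rw [this, hy, hx, sub_self]
          rcases (ht _).mp this with h | h
          · rw [sub_eq_zero] at h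
            simp [h]
          · rw [sub_eq_iff_eq_add] at h
            simp [h, add_comm]
        exact (Finset.card_le_card this).trans Finset.card_le_two
      simpa using h1
    have hcard : Fintype.card (Fin (k + 1)) ≤ Fintype.card S := by
      rw [Fintype.card_fin, Fintype.card_coe]; omega
    obtain ⟨g⟩ := Function.Embedding.nonempty_of_card_le hcard
    refine cliqueMinor_of_clique G (fun i => (g i).1)
      (fun i j h => g.injective (Subtype.ext h)) ?_
    intro i j hij
    obtain ⟨x, -, hx⟩ := Finset.mem_image.mp (g i).2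
    obtain ⟨y, -, hy⟩ := Finset.mem_image.mp (g j).2
    rw [adj_iff_sub hG]
    have : (g j).1 - (g i).1 = (y - x) + (y - x) := by
      rw [← hx, ← hy]; abel
    rw [this]
    apply hex
    rw [← this, sub_ne_zero]
    exact hij.symm

/-- Odd cyclic case. -/
theorem colorable_odd [Fintype A] {G : SimpleGraph A} (hG : TransInv G) {b : A}
    (hb : ¬ G.Adj 0 b) (hgen : addOrderOf b = Fintype.card A) {k : ℕ}
    (hk : Fintype.card A ≤ 2 * k) : G.Colorable k := by
  classical
  have hsurj : ∀ x : A, ∃ m : ℕ, m < Fintype.card A ∧ m • b = x := by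
    intro x
    have h1 : x ∈ AddSubgroup.zmultiples b := by
      have : AddSubgroup.zmultiples b = ⊤ := by
        apply AddSubgroup.eq_top_of_card_eq
        rw [Nat.card_zmultiples, hgen, Nat.card_eq_fintype_card]
      rw [this]; trivial
    have h2 := (mem_zmultiples_iff_mem_range_addOrderOf (x := b) (y := x)).mp h1
    obtain ⟨m, hm, hmx⟩ := Finset.mem_image.mp h2
    exact ⟨m, by rw [← hgen]; exact Finset.mem_range.mp hm, hmx⟩
  choose m hm hmx using hsurj
  have hcol : G.Coloring (Fin k) := by
    refine SimpleGraph.Coloring.mk (fun x => ⟨m x / 2, ?_⟩) ?_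
    · have := hm x
      omega
    · intro x y hxy hcc
      simp only [Fin.mk.injEq] at hcc
      have hne : m x ≠ m y := by
        intro h
        apply hxy.ne
        rw [← hmx x, ← hmx y, h]
      rcases lt_or_gt_of_ne hne with h | h
      · have h' : m y = m x + 1 := by omega
        rw [adj_iff_sub hG] at hxy
        have : y - x = b := by
          rw [← hmx x, ← hmx y, h', add_smul, one_smul, add_sub_cancel_left]
        rw [this] at hxy
        exact hb hxy
      · have h' : m x = m y + 1 := by omega
        rw [G.adj_comm, adj_iff_sub hG] at hxy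
        have : x - y = b := by
          rw [← hmx x, ← hmx y, h', add_smul, one_smul, add_sub_cancel_left]
        rw [this] at hxy
        exact hb hxy
  have := hcol.colorable
  rwa [Fintype.card_fin] at this

theorem minor_odd [Fintype A] {G : SimpleGraph A} (hG : TransInv G) (hα : AlphaTwo G) {b : A}
    (hb0 : b ≠ 0) (hb : ¬ G.Adj 0 b) (hgen : addOrderOf b = Fintype.card A)
    (hodd : Odd (Fintype.card A)) {k : ℕ} (hk : ¬ G.Colorable k) : CliqueMinor G k := by
  classical
  have hkn : 2 * k < Fintype.card A := by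
    by_contra h
    exact hk (colorable_odd hG hb hgen (by omega))
  obtain ⟨r, hr⟩ := hodd
  -- d = (r+1) b is half of b
  have hcb : (2 * r + 1) • b = 0 := by
    rw [← hr, ← hgen]; exact addOrderOf_nsmul_eq_zero b
  let d : A := (r + 1) • b
  have hdd : d + d = b := by
    have : d + d = (2 * r + 1) • b + b := by
      show (r + 1) • b + (r + 1) • b = _
      rw [← add_smul, ← succ_nsmul]
      congr 1
      ring
    rw [this, hcb, zero_add]
  have hd_order : addOrderOf d = Fintype.card A := by
    apply Nat.dvd_antisymm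
    · exact addOrderOf_dvd_card
    · rw [← hgen]
      apply addOrderOf_dvd_of_nsmul_eq_zero
      have : addOrderOf d • b = addOrderOf d • d + addOrderOf d • d := by
        rw [← smul_add, hdd]
      rw [this, addOrderOf_nsmul_eq_zero, add_zero]
  have hinj : ∀ i j : ℕ, i < Fintype.card A → j < Fintype.card A → i • d = j • d → i = j := by
    intro i j hi hj h
    exact nsmul_injOn_Iio_addOrderOf (by simpa [hd_order] using hi) (by simpa [hd_order] using hj) h
  refine minor_of_matching hG hα (d := d) (by rw [hdd]; exact hb0) (by rw [hdd]; exact hb)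
    (fun i : Fin k => (2 * i.1) • d) ?_ ?_
  · intro i j h
    have := hinj (2 * i.1) (2 * j.1) (by omega) (by omega) h
    exact Fin.ext (by omega)
  · intro i j h
    have h' : (2 * i.1) • d = (2 * j.1 + 1) • d := by
      rw [h, succ_nsmul]
    have := hinj (2 * i.1) (2 * j.1 + 1) (by omega) (by omega) h'
    omega


/-- Complete graph case. -/
theorem minor_complete [Fintype A] {G : SimpleGraph A} (hG : TransInv G)
    (hc : ∀ a : A, a ≠ 0 → G.Adj 0 a) {k : ℕ} (hk : ¬ G.Colorable k) : CliqueMinor G k := by
  classical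
  have hkn : k ≤ Fintype.card A := by
    by_contra h
    exact hk (SimpleGraph.Colorable.mono (by omega) G.colorable_of_fintype)
  obtain ⟨g⟩ := Function.Embedding.nonempty_of_card_le
    (α := Fin k) (β := A) (by rw [Fintype.card_fin]; exact hkn)
  refine cliqueMinor_of_clique G g g.injective ?_
  intro i j hij
  rw [adj_iff_sub hG]
  exact hc _ (sub_ne_zero.mpr hij.symm)

end Cayley

theorem CliqueMinor.mono {V : Type*} {G : SimpleGraph V} {k l : ℕ} (h : CliqueMinor G l)
    (hkl : k ≤ l) : CliqueMinor G k := by
  obtain ⟨f, h1, h2, h3⟩ := h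
  refine ⟨fun i => f (Fin.castLE hkl i), fun i => h1 _, ?_, ?_⟩
  · intro i j hij
    exact h2 _ _ (fun e => hij ((Fin.castLE_injective hkl) e))
  · intro i j hij
    exact h3 _ _ (fun e => hij ((Fin.castLE_injective hkl) e))

/-- Translation-invariant graphs on a group of prime order. -/
theorem prime_group {A : Type*} [AddCommGroup A] [Fintype A] (hp : (Fintype.card A).Prime)
    {G : SimpleGraph A} (hG : TransInv G)
    (hα : AlphaTwo G) {k : ℕ} (hk : ¬ G.Colorable k) : CliqueMinor G k := by
  classical
  by_cases hc : ∀ a : A, a ≠ 0 → G.Adj 0 a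
  · exact minor_complete hG hc hk
  · push Not at hc
    obtain ⟨b, hb0, hb⟩ := hc
    have hord : addOrderOf b = Fintype.card A := by
      rcases (Nat.dvd_prime hp).mp (addOrderOf_dvd_card (x := b)) with h | h
      · exact absurd (AddMonoid.addOrderOf_eq_one_iff.mp h) hb0
      · exact h
    rcases hp.eq_two_or_odd' with h2 | hodd
    · have hk0 : k = 0 := by
        by_contra h
        exact hk (colorable_even hG hb (by rw [hord, h2]; decide) (by omega))
      subst hk0
      exact ⟨fun _ => ∅, fun i => i.elim0, fun i => i.elim0, fun i => i.elim0⟩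
    · exact minor_odd hG hα hb0 hb hord hodd hk

/-- Vertex-transitive graphs of prime order. -/
theorem prime_transitive {V : Type*} [Fintype V] (hp : (Fintype.card V).Prime)
    {G : SimpleGraph V} (htr : ∀ x y : V, ∃ φ : G ≃g G, φ x = y) (hα : AlphaTwo G) {k : ℕ}
    (hk : ¬ G.Colorable k) : CliqueMinor G k := by
  classical
  set p := Fintype.card V with hpdef
  have : Fact p.Prime := ⟨hp⟩
  -- the automorphism group as a subgroup of permutations
  let H : Subgroup (Equiv.Perm V) :=
    { carrier := {σ | ∀ x y, G.Adj (σ x) (σ y) ↔ G.Adj x y}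
      mul_mem' := by
        intro a b ha hb x y
        change ∀ x y, G.Adj (a x) (a y) ↔ G.Adj x y at ha
        change ∀ x y, G.Adj (b x) (b y) ↔ G.Adj x y at hb
        rw [Equiv.Perm.mul_apply, Equiv.Perm.mul_apply, ha, hb]
      one_mem' := by intro x y; simp
      inv_mem' := by
        intro a ha x y
        change ∀ x y, G.Adj (a x) (a y) ↔ G.Adj x y at ha
        rw [← ha (a⁻¹ x) (a⁻¹ y)]
        simp }
  obtain ⟨v₀⟩ : Nonempty V := Fintype.card_pos_iff.mp hp.pos
  have horb : MulAction.orbit H v₀ = Set.univ := by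
    rw [Set.eq_univ_iff_forall]
    intro y
    obtain ⟨φ, hφ⟩ := htr v₀ y
    exact ⟨⟨φ.toEquiv, fun a b => φ.map_rel_iff⟩, hφ⟩
  have hdvd : p ∣ Fintype.card H := by
    have h1 := MulAction.card_orbit_mul_card_stabilizer_eq_card_group H v₀
    have h2 : Fintype.card (MulAction.orbit H v₀) = p := by
      rw [hpdef]
      have : Nat.card (MulAction.orbit H v₀) = Nat.card V := by
        rw [horb, Nat.card_univ]
      rwa [Nat.card_eq_fintype_card, Nat.card_eq_fintype_card] at this
    rw [← h1, h2]
    exact dvd_mul_right _ _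
  obtain ⟨σ, hσ⟩ := exists_prime_orderOf_dvd_card p hdvd
  have hσ' : orderOf (σ : Equiv.Perm V) = p := by
    rw [Subgroup.orderOf_coe, hσ]
  have hcyc : (σ : Equiv.Perm V).IsCycle := by
    apply Equiv.Perm.isCycle_of_prime_order'
    · rw [hσ']; exact hp
    · rw [hσ']; have := hp.pos; omega
  have hsupp : (σ : Equiv.Perm V).support = Finset.univ := by
    rw [← Finset.card_eq_iff_eq_univ, ← hcyc.orderOf, hσ']
  have hne : ∀ x, (σ : Equiv.Perm V) x ≠ x := by
    intro x
    rw [← Equiv.Perm.mem_support, hsupp]
    exact Finset.mem_univ x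
  let A := Additive (Subgroup.zpowers σ)
  let instA : AddCommGroup A :=
    { (inferInstance : AddGroup (Additive (Subgroup.zpowers σ))) with
      add_comm := by
        rintro ⟨a, i, hi⟩ ⟨b, j, hj⟩
        apply Additive.toMul.injective
        apply Subtype.ext
        show a * b = b * a
        simp only at hi hj
        rw [← hi, ← hj, ← zpow_add, ← zpow_add, add_comm] }
  let f : A → V := fun a => ((a.toMul : H) : Equiv.Perm V) v₀
  have hcardA : Fintype.card A = p := by
    rw [← Nat.card_eq_fintype_card]
    show Nat.card (Subgroup.zpowers σ) = p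
    rw [Nat.card_zpowers, hσ]
  have hfs : Function.Surjective f := by
    intro y
    obtain ⟨i, hi⟩ := hcyc.sameCycle (hne v₀) (hne y)
    refine ⟨Additive.ofMul ⟨σ ^ i, i, rfl⟩, ?_⟩
    rw [← hi]
    rfl
  have hfb : Function.Bijective f :=
    (Fintype.bijective_iff_surjective_and_card f).mpr ⟨hfs, hcardA.trans hpdef⟩
  let e : A ≃ V := Equiv.ofBijective f hfb
  let G' : SimpleGraph A := G.comap f
  have iso : G' ≃g G := ⟨e, by intro a b; rfl⟩
  have hG' : TransInv G' := by
    intro x y z
    show G.Adj (f (x + z)) (f (y + z)) ↔ G.Adj (f x) (f y)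
    have hz : ∀ a b, G.Adj (((z.toMul : H) : Equiv.Perm V) a) (((z.toMul : H) : Equiv.Perm V) b)
        ↔ G.Adj a b := (z.toMul : H).2
    have hadd : ∀ w : A, f (w + z) = ((z.toMul : H) : Equiv.Perm V) (f w) := by
      intro w
      rw [add_comm]
      rfl
    rw [hadd, hadd]
    exact hz _ _
  have hα' : AlphaTwo G' := by
    intro x y z hxy hyz hxz
    exact hα (f x) (f y) (f z) (fun h => hxy (hfb.1 h)) (fun h => hyz (hfb.1 h))
      (fun h => hxz (hfb.1 h))
  have hk' : ¬ G'.Colorable k := fun h => hk (h.of_hom iso.symm.toHom)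
  exact (prime_group (by rw [hcardA]; exact hp) hG' hα' hk').map iso

end Pool.Agent.H484R3.Circ
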