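import Mathlib
import Pool.Agent.H484R3.Circ

set_option autoImplicit false

namespace Pool.Agent.H484R3.Circ

section Cayley

variable {A : Type*} [AddCommGroup A]

theorem minor_odd' [Fintype A] {G : SimpleGraph A} (hG : TransInv G) (hα : AlphaTwo G) {b : A}
    (hb0 : b ≠ 0) (hb : ¬ G.Adj 0 b) (hgen : addOrderOf b = Fintype.card A)
    (hodd : Odd (Fintype.card A)) {k : ℕ} (hkn : 2 * k < Fintype.card A) : CliqueMinor G k := by
  classical
  obtain ⟨r, hr⟩ := hodd
  -- d = (r+1) b is half of b
  have hcb : (2 * r + 1) • b = 0 := by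
    rw [← hr, ← hgen]; exact addOrderOf_nsmul_eq_zero b
  let d : A := (r + 1) • b
  have hdd : d + d = b := by
    have : d + d = (2 * r + 1) • b + b := by
      show (r + 1) • b + (r + 1) • b = _
      rw [← add_smul, ← succ_nsmul]
      congr 1
      ring
    rw [this, hcb, zero_add]
  have hd_order : addOrderOf d = Fintype.card A := by
    apply Nat.dvd_antisymm
    · exact addOrderOf_dvd_card
    · rw [← hgen]
      apply addOrderOf_dvd_of_nsmul_eq_zero
      have : addOrderOf d • b = addOrderOf d • d + addOrderOf d • d := by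
        rw [← smul_add, hdd]
      rw [this, addOrderOf_nsmul_eq_zero, add_zero]
  have hinj : ∀ i j : ℕ, i < Fintype.card A → j < Fintype.card A → i • d = j • d → i = j := by
    intro i j hi hj h
    exact nsmul_injOn_Iio_addOrderOf (by simpa [hd_order] using hi) (by simpa [hd_order] using hj) h
  refine minor_of_matching hG hα (d := d) (by rw [hdd]; exact hb0) (by rw [hdd]; exact hb)
    (fun i : Fin k => (2 * i.1) • d) ?_ ?_
  · intro i j h
    have := hinj (2 * i.1) (2 * j.1) (by omega) (by omega) h
    exact Fin.ext (by omega)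
  · intro i j h
    have h' : (2 * i.1) • d = (2 * j.1 + 1) • d := by
      rw [h, succ_nsmul]
    have := hinj (2 * i.1) (2 * j.1 + 1) (by omega) (by omega) h'
    omega




theorem exists_index [Fintype A] {b : A} (hgen : addOrderOf b = Fintype.card A) (x : A) :
    ∃ m : ℕ, m < Fintype.card A ∧ m • b = x := by
  classical
  have h1 : x ∈ AddSubgroup.zmultiples b := by
    have : AddSubgroup.zmultiples b = ⊤ := by
      apply AddSubgroup.eq_top_of_card_eq
      rw [Nat.card_zmultiples, hgen, Nat.card_eq_fintype_card]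
    rw [this]; trivial
  have h2 := (mem_zmultiples_iff_mem_range_addOrderOf (x := b) (y := x)).mp h1
  obtain ⟨m, hm, hmx⟩ := Finset.mem_image.mp h2
  exact ⟨m, by rw [← hgen]; exact Finset.mem_range.mp hm, hmx⟩

theorem nonadj_succ {G : SimpleGraph A} (hG : TransInv G) {b : A} (hb : ¬ G.Adj 0 b)
    {x y : A} {k l : ℕ} (hx : k • b = x) (hy : l • b = y) (h : l = k + 1) : ¬ G.Adj x y := by
  intro hxy
  rw [adj_iff_sub hG] at hxy
  have : y - x = b := by
    rw [← hx, ← hy, h, add_smul, one_smul, add_sub_cancel_left]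
  rw [this] at hxy
  exact hb hxy

/-- The two bags at `0` are `(n-1)/2`-colourable. -/
theorem bags_odd [Fintype A] {G : SimpleGraph A} (hG : TransInv G) {b : A}
    (hb0 : b ≠ 0) (hb : ¬ G.Adj 0 b) (hgen : addOrderOf b = Fintype.card A)
    (hodd : Odd (Fintype.card A)) {t : ℕ} (ht : Fintype.card A ≤ 2 * t + 1) :
    (G.induce {x | x ≠ 0}).Colorable t ∧ (G.induce (insert 0 (G.neighborSet 0))).Colorable t := by
  classical
  choose m hm hmx using exists_index (A := A) hgen
  obtain ⟨r, hr⟩ := hodd
  constructor
  · have hpos : ∀ x : {x : A | x ≠ 0}, 1 ≤ m x.1 := by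
      intro x
      by_contra h
      have h0 : m x.1 = 0 := by omega
      apply x.2
      rw [← hmx x.1, h0, zero_smul]
    have hcol : (G.induce {x | x ≠ 0}).Coloring (Fin t) := by
      refine SimpleGraph.Coloring.mk (fun x => ⟨(m x.1 - 1) / 2, ?_⟩) ?_
      · have h1 := hm x.1
        have h2 := hpos x
        omega
      · intro x y hxy hcc
        simp only [Fin.mk.injEq] at hcc
        have hxy' : G.Adj x.1 y.1 := hxy
        have hne : m x.1 ≠ m y.1 := by
          intro h
          apply hxy'.ne
          rw [← hmx x.1, ← hmx y.1, h]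
        have h2 := hpos x
        have h3 := hpos y
        rcases lt_or_gt_of_ne hne with h | h
        · exact nonadj_succ hG hb (hmx x.1) (hmx y.1) (by omega) hxy'
        · exact nonadj_succ hG hb (hmx y.1) (hmx x.1) (by omega) hxy'.symm
    have := hcol.colorable
    rwa [Fintype.card_fin] at this
  · have hlast : ∀ x : (insert 0 (G.neighborSet 0) : Set A), m x.1 ≠ 2 * r := by
      intro x h
      have hneg : x.1 = -b := by
        have h1 : (2 * r + 1) • b = 0 := by
          rw [← hr, ← hgen]; exact addOrderOf_nsmul_eq_zero b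
        rw [add_smul, one_smul, ← h, hmx] at h1
        exact eq_neg_of_add_eq_zero_left h1
      rcases x.2 with h0 | h0
      · rw [hneg] at h0
        exact hb0 (neg_eq_zero.mp h0)
      · rw [hneg] at h0
        exact hb ((adj_neg hG b).mp h0)
    have hcol : (G.induce (insert 0 (G.neighborSet 0))).Coloring (Fin t) := by
      refine SimpleGraph.Coloring.mk (fun x => ⟨m x.1 / 2, ?_⟩) ?_
      · have h1 := hm x.1
        have h2 := hlast x
        omega
      · intro x y hxy hcc
        simp only [Fin.mk.injEq] at hcc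
        have hxy' : G.Adj x.1 y.1 := hxy
        have hne : m x.1 ≠ m y.1 := by
          intro h
          apply hxy'.ne
          rw [← hmx x.1, ← hmx y.1, h]
        rcases lt_or_gt_of_ne hne with h | h
        · exact nonadj_succ hG hb (hmx x.1) (hmx y.1) (by omega) hxy'
        · exact nonadj_succ hG hb (hmx y.1) (hmx x.1) (by omega) hxy'.symm
    have := hcol.colorable
    rwa [Fintype.card_fin] at this

theorem colorable_induce {V : Type*} {G : SimpleGraph V} {t : ℕ} (h : G.Colorable t) (S : Set V) :
    (G.induce S).Colorable t := h.of_hom (SimpleGraph.Embedding.induce S).toHom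

theorem bags_group [Fintype A] (hp : (Fintype.card A).Prime)
    {G : SimpleGraph A} (hG : TransInv G) (hα : AlphaTwo G) {t : ℕ}
    (hk : ¬ CliqueMinor G (t + 1)) :
    (G.induce {x | x ≠ 0}).Colorable t ∧ (G.induce (insert 0 (G.neighborSet 0))).Colorable t := by
  classical
  by_cases hcolt : G.Colorable t
  · exact ⟨colorable_induce hcolt _, colorable_induce hcolt _⟩
  by_cases hc : ∀ a : A, a ≠ 0 → G.Adj 0 a
  · have htp : Fintype.card A ≤ t := by
      by_contra h
      push Not at h
      obtain ⟨g⟩ := Function.Embedding.nonempty_of_card_le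
        (α := Fin (t + 1)) (β := A) (by rw [Fintype.card_fin]; exact h)
      apply hk
      refine cliqueMinor_of_clique G g g.injective ?_
      intro i j hij
      rw [adj_iff_sub hG]
      exact hc _ (sub_ne_zero.mpr hij.symm)
    exact absurd (SimpleGraph.Colorable.mono htp G.colorable_of_fintype) hcolt
  · push Not at hc
    obtain ⟨b, hb0, hb⟩ := hc
    have hord : addOrderOf b = Fintype.card A := by
      rcases (Nat.dvd_prime hp).mp (addOrderOf_dvd_card (x := b)) with h | h
      · exact absurd (AddMonoid.addOrderOf_eq_one_iff.mp h) hb0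
      · exact h
    rcases hp.eq_two_or_odd' with h2 | hodd
    · have ht0 : t = 0 := by
        by_contra h
        exact hcolt (colorable_even hG hb (by rw [hord, h2]; decide) (by omega))
      subst ht0
      exfalso
      apply hk
      exact cliqueMinor_of_clique G (fun _ => (0 : A)) (fun i j _ => Fin.ext (by omega))
        (fun i j h => absurd rfl h)
    · have hle : Fintype.card A ≤ 2 * t + 1 := by
        by_contra h
        push Not at h
        obtain ⟨r, hr⟩ := hodd
        exact hk (minor_odd' hG hα hb0 hb hord ⟨r, hr⟩ (by omega))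
      exact bags_odd hG hb0 hb hord hodd hle

end Cayley

theorem exists_group {V : Type*} [Fintype V] (hp : (Fintype.card V).Prime)
    {G : SimpleGraph V} (htr : ∀ x y : V, ∃ φ : G ≃g G, φ x = y) (hα : AlphaTwo G) {t : ℕ}
    (hk : ¬ CliqueMinor G (t + 1)) :
    ∃ v : V, (G.induce {x | x ≠ v}).Colorable t ∧
      (G.induce (insert v (G.neighborSet v))).Colorable t := by
  classical
  set p := Fintype.card V with hpdef
  have : Fact p.Prime := ⟨hp⟩
  -- the automorphism group as a subgroup of permutations
  let H : Subgroup (Equiv.Perm V) :=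
    { carrier := {σ | ∀ x y, G.Adj (σ x) (σ y) ↔ G.Adj x y}
      mul_mem' := by
        intro a b ha hb x y
        change ∀ x y, G.Adj (a x) (a y) ↔ G.Adj x y at ha
        change ∀ x y, G.Adj (b x) (b y) ↔ G.Adj x y at hb
        rw [Equiv.Perm.mul_apply, Equiv.Perm.mul_apply, ha, hb]
      one_mem' := by intro x y; simp
      inv_mem' := by
        intro a ha x y
        change ∀ x y, G.Adj (a x) (a y) ↔ G.Adj x y at ha
        rw [← ha (a⁻¹ x) (a⁻¹ y)]
        simp }
  obtain ⟨v₀⟩ : Nonempty V := Fintype.card_pos_iff.mp hp.pos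
  have horb : MulAction.orbit H v₀ = Set.univ := by
    rw [Set.eq_univ_iff_forall]
    intro y
    obtain ⟨φ, hφ⟩ := htr v₀ y
    exact ⟨⟨φ.toEquiv, fun a b => φ.map_rel_iff⟩, hφ⟩
  have hdvd : p ∣ Fintype.card H := by
    have h1 := MulAction.card_orbit_mul_card_stabilizer_eq_card_group H v₀
    have h2 : Fintype.card (MulAction.orbit H v₀) = p := by
      rw [hpdef]
      have : Nat.card (MulAction.orbit H v₀) = Nat.card V := by
        rw [horb, Nat.card_univ]
      rwa [Nat.card_eq_fintype_card, Nat.card_eq_fintype_card] at this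
    rw [← h1, h2]
    exact dvd_mul_right _ _
  obtain ⟨σ, hσ⟩ := exists_prime_orderOf_dvd_card p hdvd
  have hσ' : orderOf (σ : Equiv.Perm V) = p := by
    rw [Subgroup.orderOf_coe, hσ]
  have hcyc : (σ : Equiv.Perm V).IsCycle := by
    apply Equiv.Perm.isCycle_of_prime_order'
    · rw [hσ']; exact hp
    · rw [hσ']; have := hp.pos; omega
  have hsupp : (σ : Equiv.Perm V).support = Finset.univ := by
    rw [← Finset.card_eq_iff_eq_univ, ← hcyc.orderOf, hσ']
  have hne : ∀ x, (σ : Equiv.Perm V) x ≠ x := by
    intro x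
    rw [← Equiv.Perm.mem_support, hsupp]
    exact Finset.mem_univ x
  let A := Additive (Subgroup.zpowers σ)
  let instA : AddCommGroup A :=
    { (inferInstance : AddGroup (Additive (Subgroup.zpowers σ))) with
      add_comm := by
        rintro ⟨a, i, hi⟩ ⟨b, j, hj⟩
        apply Additive.toMul.injective
        apply Subtype.ext
        show a * b = b * a
        simp only at hi hj
        rw [← hi, ← hj, ← zpow_add, ← zpow_add, add_comm] }
  let f : A → V := fun a => ((a.toMul : H) : Equiv.Perm V) v₀
  have hcardA : Fintype.card A = p := by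
    rw [← Nat.card_eq_fintype_card]
    show Nat.card (Subgroup.zpowers σ) = p
    rw [Nat.card_zpowers, hσ]
  have hfs : Function.Surjective f := by
    intro y
    obtain ⟨i, hi⟩ := hcyc.sameCycle (hne v₀) (hne y)
    refine ⟨Additive.ofMul ⟨σ ^ i, i, rfl⟩, ?_⟩
    rw [← hi]
    rfl
  have hfb : Function.Bijective f :=
    (Fintype.bijective_iff_surjective_and_card f).mpr ⟨hfs, hcardA.trans hpdef⟩
  let e : A ≃ V := Equiv.ofBijective f hfb
  let G' : SimpleGraph A := G.comap f
  have iso : G' ≃g G := ⟨e, by intro a b; rfl⟩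
  have hG' : TransInv G' := by
    intro x y z
    show G.Adj (f (x + z)) (f (y + z)) ↔ G.Adj (f x) (f y)
    have hz : ∀ a b, G.Adj (((z.toMul : H) : Equiv.Perm V) a) (((z.toMul : H) : Equiv.Perm V) b)
        ↔ G.Adj a b := (z.toMul : H).2
    have hadd : ∀ w : A, f (w + z) = ((z.toMul : H) : Equiv.Perm V) (f w) := by
      intro w
      rw [add_comm]
      rfl
    rw [hadd, hadd]
    exact hz _ _
  have hα' : AlphaTwo G' := by
    intro x y z hxy hyz hxz
    exact hα (f x) (f y) (f z) (fun h => hxy (hfb.1 h)) (fun h => hyz (hfb.1 h))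
      (fun h => hxz (hfb.1 h))
  have hk' : ¬ CliqueMinor G' (t + 1) := fun h => hk (h.map iso)
  obtain ⟨h1, h2⟩ := bags_group (by rw [hcardA]; exact hp) hG' hα' hk'
  refine ⟨iso 0, ?_, ?_⟩
  · have hmem : ∀ x : {x : V | x ≠ iso 0}, iso.symm x.1 ∈ {x : A | x ≠ 0} := by
      intro x h
      apply x.2
      have h3 := congrArg iso h
      rwa [iso.apply_symm_apply] at h3
    exact h1.of_hom ⟨fun x => ⟨iso.symm x.1, hmem x⟩, fun {x y} hxy =>
      iso.symm.map_rel_iff.mpr hxy⟩
  · have hmem : ∀ x : (insert (iso 0) (G.neighborSet (iso 0)) : Set V),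
        iso.symm x.1 ∈ (insert 0 (G'.neighborSet 0) : Set A) := by
      intro x
      rcases x.2 with h | h
      · left
        rw [h, iso.symm_apply_apply]
      · right
        have h' : G.Adj (iso 0) x.1 := h
        have h3 := iso.symm.map_rel_iff.mpr h'
        rw [iso.symm_apply_apply] at h3
        exact h3
    exact h2.of_hom ⟨fun x => ⟨iso.symm x.1, hmem x⟩, fun {x y} hxy =>
      iso.symm.map_rel_iff.mpr hxy⟩

/-- Path decomposition with two bags. -/
theorem path_two {V : Type*} {G : SimpleGraph V} {t : ℕ} {v : V}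
    (h1 : (G.induce {x | x ≠ v}).Colorable t)
    (h2 : (G.induce (insert v (G.neighborSet v))).Colorable t) :
    ∃ (m : ℕ) (B : Fin m → Set V),
        (∀ v : V, ∃ i, v ∈ B i) ∧
        (∀ u v : V, G.Adj u v → ∃ i, u ∈ B i ∧ v ∈ B i) ∧
        (∀ (v : V) (i j k : Fin m), i ≤ j → j ≤ k → v ∈ B i → v ∈ B k → v ∈ B j) ∧
        (∀ i, (G.induce (B i)).Colorable t) := by
  classical
  refine ⟨2, ![insert v (G.neighborSet v), {x | x ≠ v}], ?_, ?_, ?_, ?_⟩
  · intro x
    by_cases hx : x = v
    · exact ⟨0, Or.inl hx⟩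
    · exact ⟨1, hx⟩
  · intro x y hxy
    by_cases hx : x = v
    · refine ⟨0, Or.inl hx, Or.inr ?_⟩
      rw [← hx]
      exact hxy
    · by_cases hy : y = v
      · refine ⟨0, Or.inr ?_, Or.inl hy⟩
        rw [← hy]
        exact hxy.symm
      · exact ⟨1, hx, hy⟩
  · intro x i j k hij hjk hi hk
    have : j = i ∨ j = k := by
      revert i j k
      intro i j k h1 h2 _ _
      clear * - h1 h2
      revert i j k
      decide
    rcases this with rfl | rfl
    · exact hi
    · exact hk
  · intro i
    fin_cases i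
    · exact h2
    · exact h1

theorem tree_two {V : Type*} {G : SimpleGraph V} {t : ℕ} {v : V}
    (h1 : (G.induce {x | x ≠ v}).Colorable t)
    (h2 : (G.induce (insert v (G.neighborSet v))).Colorable t) :
    ∃ n : ℕ, ∃ T : SimpleGraph (Fin n), T.IsTree ∧
        ∃ β : Fin n → Set V,
          (∀ u v, G.Adj u v → ∃ w, u ∈ β w ∧ v ∈ β w) ∧
          (∀ v, (T.induce {w | v ∈ β w}).Connected) ∧
          (∀ w, (G.induce (β w)).Colorable t) := by
  classical
  have hconn : ∀ S : Set (Fin 2), S.Nonempty → ((⊤ : SimpleGraph (Fin 2)).induce S).Connected := by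
    intro S hS
    have : Nonempty S := hS.to_subtype
    rw [SimpleGraph.induce_top]
    exact SimpleGraph.connected_top
  refine ⟨2, ⊤, ?_, ![insert v (G.neighborSet v), {x | x ≠ v}], ?_, ?_, ?_⟩
  · rw [SimpleGraph.isTree_iff_connected_and_card]
    refine ⟨SimpleGraph.connected_top, ?_⟩
    rw [Nat.card_eq_fintype_card, ← SimpleGraph.edgeFinset_card,
      SimpleGraph.card_edgeFinset_top_eq_card_choose_two]
    simp
  · intro x y hxy
    by_cases hx : x = v
    · refine ⟨0, Or.inl hx, Or.inr ?_⟩
      rw [← hx]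
      exact hxy
    · by_cases hy : y = v
      · refine ⟨0, Or.inr ?_, Or.inl hy⟩
        rw [← hy]
        exact hxy.symm
      · exact ⟨1, hx, hy⟩
  · intro x
    apply hconn
    by_cases hx : x = v
    · exact ⟨0, Or.inl hx⟩
    · exact ⟨1, hx⟩
  · intro i
    fin_cases i
    · exact h2
    · exact h1

end Pool.Agent.H484R3.Circ
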